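import Mathlib

/-!
Geometric graphs, lines, and the function `f n k`.
-/

namespace Pool.Agent.T2H82.GeoLine

/-- A geometric graph on `n` points: `n` distinct points of the plane, no three of them collinear,
together with a simple graph on them (edges are drawn as straight segments). -/
structure GeomGraph (n : ℕ) where
  /-- the points -/
  pt : Fin n → ℝ × ℝ
  inj : Function.Injective pt
  gen : ∀ i j k : Fin n, i ≠ j → i ≠ k → j ≠ k → ¬ Collinear ℝ {pt i, pt j, pt k}
  /-- the edges -/
  G : SimpleGraph (Fin n)

/-- straight lines of the plane -/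
def IsLine (L : Set (ℝ × ℝ)) : Prop :=
  ∃ a b c : ℝ, (a ≠ 0 ∨ b ≠ 0) ∧ L = {z | a * z.1 + b * z.2 = c}

open scoped Classical in
/-- the edges, each written once as `(i, j)` with `i < j` -/
noncomputable def GeomGraph.edges {n : ℕ} (Γ : GeomGraph n) : Finset (Fin n × Fin n) :=
  Finset.univ.filter (fun e => e.1 < e.2 ∧ Γ.G.Adj e.1 e.2)

open scoped Classical in
/-- the edges whose relative interior meets the set `L` -/
noncomputable def GeomGraph.met {n : ℕ} (Γ : GeomGraph n) (L : Set (ℝ × ℝ)) :
    Finset (Fin n × Fin n) :=
  Γ.edges.filter (fun e => (openSegment ℝ (Γ.pt e.1) (Γ.pt e.2) ∩ L).Nonempty)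

/-- every geometric graph on `n` points with at least `e` edges has a line meeting at least `k` of
its edges -/
def Forces (n k e : ℕ) : Prop :=
  ∀ Γ : GeomGraph n, e ≤ Γ.edges.card → ∃ L : Set (ℝ × ℝ), IsLine L ∧ k ≤ (Γ.met L).card

/-- the least `e` such that every geometric graph on `n` points with at least `e` edges has a line
meeting at least `k` of its edges -/
noncomputable def f (n k : ℕ) : ℕ := sInf {e | Forces n k e}

end Pool.Agent.T2H82.GeoLine
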