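import Mathlib
import Pool.Agent.T2H82.GeoLine.Defs

/-!
The lower bound construction: points in convex position, short chords and a balanced set of chords
of length `d + 1`.
-/

namespace Pool.Agent.T2H82.GeoLine

open Finset

/-- `⌊j N / n⌋` -/
def gg (n N j : ℕ) : ℕ := j * N / n

/-- indicator of the starting points of the long chords -/
def ss (n N j : ℕ) : ℕ := gg n N (j + 1) - gg n N j

theorem gg_mono (n N : ℕ) : Monotone (gg n N) := fun _ _ h => Nat.div_le_div_right (Nat.mul_le_mul_right _ h)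

theorem ss_le_one (n N j : ℕ) (hn : 0 < n) (hN : N ≤ n) : ss n N j ≤ 1 := by
  unfold ss gg
  have h1 : (j + 1) * N / n ≤ (j * N + n) / n := Nat.div_le_div_right (by nlinarith)
  rw [Nat.add_div_right _ hn] at h1
  omega

theorem ss_periodic (n N j : ℕ) (hn : 0 < n) : ss n N (j + n) = ss n N j := by
  unfold ss gg
  have h1 : (j + n + 1) * N / n = (j + 1) * N / n + N := by
    rw [show (j + n + 1) * N = (j + 1) * N + N * n by ring, Nat.add_mul_div_right _ _ hn]
  have h2 : (j + n) * N / n = j * N / n + N := by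
    rw [show (j + n) * N = j * N + N * n by ring, Nat.add_mul_div_right _ _ hn]
  rw [h1, h2]; omega

theorem ss_mod (n N j : ℕ) (hn : 0 < n) : ss n N (j % n) = ss n N j := by
  induction j using Nat.strong_induction_on with
  | _ j ih =>
    by_cases h : j < n
    · rw [Nat.mod_eq_of_lt h]
    · push Not at h
      have h1 := ih (j - n) (by omega)
      have h2 : j % n = (j - n) % n := by rw [Nat.mod_eq_sub_mod h]
      rw [h2, h1]
      have h3 := ss_periodic n N (j - n) hn
      rw [Nat.sub_add_cancel h] at h3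
      exact h3.symm

theorem sum_ss (n N j m : ℕ) : ∑ x ∈ range m, ss n N (j + x) = gg n N (j + m) - gg n N j := by
  induction m with
  | zero => simp
  | succ m ih =>
    rw [sum_range_succ, ih]
    unfold ss
    have h1 := gg_mono n N (show j ≤ j + m by omega)
    have h2 := gg_mono n N (show j + m ≤ j + m + 1 by omega)
    rw [← add_assoc]
    omega

theorem window (n N r D j : ℕ) (hn : 0 < n) (h : D * N ≤ r * n) :
    ∑ x ∈ range D, ss n N (j + x) ≤ r := by
  rw [sum_ss]
  unfold gg
  have h1 : (j + D) * N / n ≤ (j * N + r * n) / n := Nat.div_le_div_right (by nlinarith)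
  rw [Nat.add_mul_div_right _ _ hn] at h1
  omega

theorem card_starts (n N : ℕ) (hn : 0 < n) (hN : N ≤ n) :
    ((range n).filter (fun i => ss n N i = 1)).card = N := by
  have h1 := sum_ss n N 0 n
  have h2 : gg n N (0 + n) - gg n N 0 = N := by
    unfold gg; simp [Nat.mul_div_cancel_left N hn]
  rw [h2] at h1
  rw [card_filter]
  refine Eq.trans ?_ h1
  apply sum_congr rfl
  intro i _
  have := ss_le_one n N i hn hN
  rw [zero_add]
  split_ifs with h
  · exact h.symm
  · omega

/-- the arcs -/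
def arcs (n N d : ℕ) : Finset (ℕ × ℕ) :=
  (range n ×ˢ Icc 1 d) ∪ ((range n).filter (fun i => ss n N i = 1)) ×ˢ {d + 1}

theorem mem_arcs {n N d : ℕ} {a : ℕ × ℕ} : a ∈ arcs n N d ↔
    a.1 < n ∧ ((1 ≤ a.2 ∧ a.2 ≤ d) ∨ (ss n N a.1 = 1 ∧ a.2 = d + 1)) := by
  simp only [arcs, mem_union, mem_product, mem_range, mem_Icc, mem_filter, mem_singleton]
  tauto

theorem card_arcs (n N d : ℕ) (hn : 0 < n) (hN : N ≤ n) : (arcs n N d).card = d * n + N := by
  unfold arcs
  rw [card_union_of_disjoint]
  · rw [card_product, card_product, card_starts n N hn hN]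
    simp; ring
  · rw [disjoint_left]
    rintro ⟨a, b⟩ h1 h2
    simp only [mem_product, mem_range, mem_Icc, mem_filter, mem_singleton] at h1 h2
    omega

theorem back (n i x γ : ℕ) (hi : i < n) (hx : x ≤ n) (h : (i + x) % n = γ) : i = (γ + n - x) % n := by
  have hn : 0 < n := by omega
  by_cases h1 : i + x < n
  · rw [Nat.mod_eq_of_lt h1] at h
    have : γ + n - x = i + n := by omega
    rw [this, Nat.add_mod_right, Nat.mod_eq_of_lt hi]
  · push Not at h1
    have h2 : (i + x) % n = i + x - n := by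
      rw [Nat.mod_eq_sub_mod h1]
      by_cases h3 : i + x - n < n
      · exact Nat.mod_eq_of_lt h3
      · omega
    have : γ + n - x = i := by omega
    rw [this, Nat.mod_eq_of_lt hi]

open scoped Classical in
/-- number of arcs crossing a gap -/
theorem gap_count (n N d r w γ : ℕ) (hn : d + 1 < n) (hDN : (d + 1) * N ≤ r * n)
    (hw : 2 * w = d * (d + 1) + 2 * r) :
    ((arcs n N d).filter (fun a => ∃ x, 1 ≤ x ∧ x ≤ a.2 ∧ (a.1 + x) % n = γ)).card ≤ w := by
  classical
  have hn0 : 0 < n := by omega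
  -- short arcs
  let T : Finset (ℕ × ℕ) := (Icc 1 d).sigma (fun l => Icc 1 l) |>.image (fun z => ((γ + n - z.2) % n, z.1))
  let T2 : Finset (ℕ × ℕ) := ((range (d + 1)).filter (fun x => ss n N (γ + n - (d + 1) + x) = 1)).image
    (fun x => ((γ + n - (d + 1) + x) % n, d + 1))
  have hsub : (arcs n N d).filter (fun a => ∃ x, 1 ≤ x ∧ x ≤ a.2 ∧ (a.1 + x) % n = γ) ⊆ T ∪ T2 := by
    intro a ha
    rw [mem_filter, mem_arcs] at ha
    obtain ⟨⟨h1, h2⟩, x, hx1, hx2, hx3⟩ := ha
    rw [mem_union]
    have hxn : x ≤ n := by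
      rcases h2 with h | h <;> omega
    have hb := back n a.1 x γ h1 hxn hx3
    rcases h2 with h | h
    · left
      simp only [T, mem_image, mem_sigma, mem_Icc]
      refine ⟨⟨a.2, x⟩, ⟨⟨h.1, h.2⟩, hx1, hx2⟩, ?_⟩
      exact Prod.ext hb.symm rfl
    · right
      simp only [T2, mem_image, mem_filter, mem_range]
      have e : γ + n - (d + 1) + (d + 1 - x) = γ + n - x := by omega
      refine ⟨d + 1 - x, ⟨by omega, ?_⟩, ?_⟩
      · rw [e, ← ss_mod n N _ hn0, ← hb]; exact h.1
      · rw [e]
        exact Prod.ext hb.symm h.2.symm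
  have hT : 2 * T.card ≤ d * (d + 1) := by
    have h1 : T.card ≤ ∑ l ∈ Icc 1 d, l := by
      refine le_trans card_image_le ?_
      rw [card_sigma]
      apply le_of_eq
      apply sum_congr rfl
      intro l _; simp
    have h2 : ∑ l ∈ Icc 1 d, l = ∑ l ∈ range (d + 1), l := by
      rw [Finset.range_eq_Ico]
      rw [Finset.sum_eq_sum_Ico_succ_bot (by omega : 0 < d + 1)]
      rw [zero_add]
      rfl
    have h3 := Finset.sum_range_id_mul_two (d + 1)
    simp only [Nat.add_sub_cancel] at h3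
    rw [h2] at h1
    have : (d + 1) * d = d * (d + 1) := by ring
    omega
  have hT2 : T2.card ≤ r := by
    refine le_trans card_image_le ?_
    refine le_trans ?_ (window n N r (d + 1) (γ + n - (d + 1)) hn0 hDN)
    rw [card_filter]
    apply sum_le_sum
    intro x _
    split_ifs with h
    · exact h.ge
    · exact Nat.zero_le _
  have := card_le_card hsub
  have h4 := card_union_le T T2
  omega

/-- the quadratic form of a line on the points `(i, i²)` -/
def FF (a b c : ℝ) (i : ℕ) : ℝ := a * i + b * (i : ℝ) ^ 2 - c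

/-- membership in the interval cut off by a line -/
def MM (a b c : ℝ) (i : ℕ) : Prop := FF a b c i < 0 ∨ (FF a b c i = 0 ∧ ∃ j < i, FF a b c j = 0)

theorem FF_interp (a b c : ℝ) (i j k : ℕ) : FF a b c j * ((k : ℝ) - i) =
    FF a b c i * ((k : ℝ) - j) + FF a b c k * ((j : ℝ) - i)
      - b * ((k : ℝ) - j) * ((j : ℝ) - i) * ((k : ℝ) - i) := by
  unfold FF; ring

theorem FF_neg (a b c : ℝ) (hab : a ≠ 0 ∨ b ≠ 0) (hb : 0 ≤ b) (i j k : ℕ) (hij : i < j) (hjk : j < k)
    (hi : FF a b c i ≤ 0) (hk : FF a b c k ≤ 0) : FF a b c j < 0 := by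
  have h := FF_interp a b c i j k
  have hij' : (0 : ℝ) < (j : ℝ) - i := by
    have : (i : ℝ) < j := by exact_mod_cast hij
    linarith
  have hjk' : (0 : ℝ) < (k : ℝ) - j := by
    have : (j : ℝ) < k := by exact_mod_cast hjk
    linarith
  have hik' : (0 : ℝ) < (k : ℝ) - i := by linarith
  have h1 : FF a b c i * ((k : ℝ) - j) ≤ 0 := mul_nonpos_of_nonpos_of_nonneg hi hjk'.le
  have h2 : FF a b c k * ((j : ℝ) - i) ≤ 0 := mul_nonpos_of_nonpos_of_nonneg hk hij'.le
  have h3 : 0 ≤ b * ((k : ℝ) - j) * ((j : ℝ) - i) * ((k : ℝ) - i) := by positivity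
  by_contra hcon
  push Not at hcon
  have h4 : 0 ≤ FF a b c j * ((k : ℝ) - i) := mul_nonneg hcon hik'.le
  have h5 : FF a b c i * ((k : ℝ) - j) = 0 := by linarith
  have h6 : FF a b c k * ((j : ℝ) - i) = 0 := by linarith
  have h7 : b * ((k : ℝ) - j) * ((j : ℝ) - i) * ((k : ℝ) - i) = 0 := by linarith
  have h8 : FF a b c i = 0 := by
    rcases mul_eq_zero.1 h5 with h | h
    · exact h
    · linarith
  have h9 : FF a b c k = 0 := by
    rcases mul_eq_zero.1 h6 with h | h
    · exact h
    · linarith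
  have h10 : b = 0 := by
    rcases mul_eq_zero.1 h7 with h | h
    · rcases mul_eq_zero.1 h with h | h
      · rcases mul_eq_zero.1 h with h | h
        · exact h
        · linarith
      · linarith
    · linarith
  have h11 : a * ((k : ℝ) - i) = 0 := by
    unfold FF at h8 h9; rw [h10] at h8 h9; linarith
  have h12 : a = 0 := by
    rcases mul_eq_zero.1 h11 with h | h
    · exact h
    · linarith
  rcases hab with h | h
  · exact h h12
  · exact h h10

theorem MM_nonpos {a b c : ℝ} {i : ℕ} (h : MM a b c i) : FF a b c i ≤ 0 := by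
  rcases h with h | h
  · exact h.le
  · exact h.1.le

theorem MM_convex (a b c : ℝ) (hab : a ≠ 0 ∨ b ≠ 0) (hb : 0 ≤ b) (i j k : ℕ) (hij : i ≤ j) (hjk : j ≤ k)
    (hi : MM a b c i) (hk : MM a b c k) : MM a b c j := by
  rcases eq_or_lt_of_le hij with rfl | hij
  · exact hi
  rcases eq_or_lt_of_le hjk with rfl | hjk
  · exact hk
  exact Or.inl (FF_neg a b c hab hb i j k hij hjk (MM_nonpos hi) (MM_nonpos hk))

/-- an edge which is met has exactly one endpoint in the interval -/
theorem MM_of_met (a b c : ℝ) (hab : a ≠ 0 ∨ b ≠ 0) (hb : 0 ≤ b) (u v : ℕ) (huv : u ≠ v)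
    (t1 t2 : ℝ) (h1 : 0 < t1) (h2 : 0 < t2) (h : t1 * FF a b c u + t2 * FF a b c v = 0) :
    ¬ (MM a b c u ↔ MM a b c v) := by
  rcases lt_trichotomy (FF a b c u) 0 with hu | hu | hu
  · have hv : 0 < FF a b c v := by
      have : t1 * FF a b c u < 0 := mul_neg_of_pos_of_neg h1 hu
      have h3 : 0 < t2 * FF a b c v := by linarith
      exact (mul_pos_iff_of_pos_left h2).1 h3
    intro hiff
    have := MM_nonpos (hiff.1 (Or.inl hu))
    linarith
  · have hv : FF a b c v = 0 := by
      rw [hu] at h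
      simp at h
      rcases h with h | h
      · exact absurd h h2.ne'
      · exact h
    -- both zero
    have key : ∀ u v : ℕ, u < v → FF a b c u = 0 → FF a b c v = 0 → MM a b c v ∧ ¬ MM a b c u := by
      intro u v huv hu hv
      refine ⟨Or.inr ⟨hv, u, huv, hu⟩, ?_⟩
      rintro (h | ⟨_, j, hj, hj0⟩)
      · linarith
      · have := FF_neg a b c hab hb j u v hj huv hj0.le hv.le
        linarith
    rcases lt_or_gt_of_ne huv with h' | h'
    · have := key u v h' hu hv
      tauto
    · have := key v u h' hv hu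
      tauto
  · have hv : FF a b c v < 0 := by
      have : 0 < t1 * FF a b c u := mul_pos h1 hu
      have h3 : t2 * FF a b c v < 0 := by linarith
      by_contra hcon
      push Not at hcon
      have := mul_nonneg h2.le hcon
      linarith
    intro hiff
    have := MM_nonpos (hiff.2 (Or.inl hv))
    linarith

/-- an order-convex set has at most two cyclic boundary gaps -/
theorem two_gaps (n : ℕ) (hn : 0 < n) (M : ℕ → Prop)
    (hM : ∀ i j k, i ≤ j → j ≤ k → M i → M k → M j) :
    ∃ α β : ℕ, ∀ γ < n, ¬ (M ((γ + (n - 1)) % n) ↔ M γ) → γ = α ∨ γ = β := by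
  classical
  by_cases hex : ∃ i < n, M i
  · let S := (range n).filter M
    have hS : S.Nonempty := by
      obtain ⟨i, hi, hMi⟩ := hex
      exact ⟨i, by simp [S, hi, hMi]⟩
    have h1 := S.min'_mem hS
    have h2 := S.max'_mem hS
    set α := S.min' hS with hα
    set β := S.max' hS with hβ
    have hmem : ∀ i < n, (M i ↔ α ≤ i ∧ i ≤ β) := by
      intro i hi
      constructor
      · intro h
        have : i ∈ S := by simp [S, hi, h]
        exact ⟨S.min'_le i this, S.le_max' i this⟩
      · rintro ⟨a, b⟩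
        exact hM α i β a b (by simpa [S] using (mem_filter.1 h1).2) (by simpa [S] using (mem_filter.1 h2).2)
    have hβn : β < n := by simpa using (mem_filter.1 h2).1
    refine ⟨α, (β + 1) % n, ?_⟩
    intro γ hγ hne
    by_cases h0 : γ = 0
    · subst h0
      have e : (0 + (n - 1)) % n = n - 1 := by rw [zero_add]; exact Nat.mod_eq_of_lt (by omega)
      rw [e, hmem (n - 1) (by omega), hmem 0 hn] at hne
      by_cases hb : β = n - 1
      · right
        rw [hb, Nat.sub_add_cancel hn, Nat.mod_self]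
      · left
        by_contra hcon
        apply hne
        constructor
        · intro h; omega
        · intro h; omega
    · have e : (γ + (n - 1)) % n = γ - 1 := by
        have : γ + (n - 1) = (γ - 1) + n := by omega
        rw [this, Nat.add_mod_right]; exact Nat.mod_eq_of_lt (by omega)
      rw [e, hmem (γ - 1) (by omega), hmem γ hγ] at hne
      by_cases hb : γ = β + 1
      · right
        rw [← hb]; exact (Nat.mod_eq_of_lt hγ).symm
      · left
        by_contra hcon
        apply hne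
        constructor
        · intro h; omega
        · intro h; omega
  · refine ⟨0, 0, ?_⟩
    intro γ hγ hne
    exfalso
    apply hne
    constructor
    · intro h; exact absurd ⟨_, Nat.mod_lt _ hn, h⟩ hex
    · intro h; exact absurd ⟨γ, hγ, h⟩ hex

/-- walking along an arc -/
theorem walk (n : ℕ) (hn : 0 < n) (M : ℕ → Prop) (i l : ℕ)
    (h : ¬ (M (i % n) ↔ M ((i + l) % n))) :
    ∃ x, 1 ≤ x ∧ x ≤ l ∧ ¬ (M (((i + x) % n + (n - 1)) % n) ↔ M ((i + x) % n)) := by
  induction l with
  | zero => exact absurd Iff.rfl h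
  | succ l ih =>
    by_cases h1 : (M (i % n) ↔ M ((i + l) % n))
    · refine ⟨l + 1, by omega, le_refl _, ?_⟩
      have e : (((i + (l + 1)) % n + (n - 1)) % n) = (i + l) % n := by
        rw [Nat.mod_add_mod]
        have : i + (l + 1) + (n - 1) = i + l + n := by omega
        rw [this, Nat.add_mod_right]
      rw [e]
      intro h2
      exact h (h1.trans h2)
    · obtain ⟨x, hx1, hx2, hx3⟩ := ih h1
      exact ⟨x, hx1, by omega, hx3⟩

/-- an element of `Fin n` from a natural number -/
def fin (n : ℕ) (hn : 0 < n) (i : ℕ) : Fin n := ⟨i % n, Nat.mod_lt _ hn⟩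

/-- the unordered pair of an arc, written increasingly -/
def arcEdge (n : ℕ) (hn : 0 < n) (a : ℕ × ℕ) : Fin n × Fin n :=
  (min (fin n hn a.1) (fin n hn (a.1 + a.2)), max (fin n hn a.1) (fin n hn (a.1 + a.2)))

theorem arcEdge_inj (n N d : ℕ) (hn : 0 < n) (hd : 2 * (d + 1) < n) :
    Set.InjOn (arcEdge n hn) (arcs n N d : Set (ℕ × ℕ)) := by
  intro a ha b hb hab
  rw [mem_coe, mem_arcs] at ha hb
  have ha2 : 1 ≤ a.2 ∧ a.2 ≤ d + 1 := by rcases ha.2 with h | h <;> omega
  have hb2 : 1 ≤ b.2 ∧ b.2 ≤ d + 1 := by rcases hb.2 with h | h <;> omega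
  have hcase : (fin n hn a.1 = fin n hn b.1 ∧ fin n hn (a.1 + a.2) = fin n hn (b.1 + b.2)) ∨
      (fin n hn a.1 = fin n hn (b.1 + b.2) ∧ fin n hn (a.1 + a.2) = fin n hn b.1) := by
    unfold arcEdge at hab
    simp only [Prod.mk.injEq] at hab
    obtain ⟨h1, h2⟩ := hab
    rcases le_total (fin n hn a.1) (fin n hn (a.1 + a.2)) with h | h <;>
      rcases le_total (fin n hn b.1) (fin n hn (b.1 + b.2)) with h' | h' <;>
      simp only [min_eq_left h, max_eq_right h, min_eq_right h, max_eq_left h,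
        min_eq_left h', max_eq_right h', min_eq_right h', max_eq_left h'] at h1 h2
    · exact Or.inl ⟨h1, h2⟩
    · exact Or.inr ⟨h1, h2⟩
    · exact Or.inr ⟨h2, h1⟩
    · exact Or.inl ⟨h2, h1⟩
  simp only [fin, Fin.mk.injEq] at hcase
  rw [Nat.mod_eq_of_lt ha.1, Nat.mod_eq_of_lt hb.1] at hcase
  have hmod : ∀ x : ℕ, x < 2 * n → (x % n = x ∧ x < n) ∨ (x % n = x - n ∧ n ≤ x) := by
    intro x hx
    by_cases h : x < n
    · exact Or.inl ⟨Nat.mod_eq_of_lt h, h⟩
    · right
      push Not at h
      rw [Nat.mod_eq_sub_mod h]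
      exact ⟨Nat.mod_eq_of_lt (by omega), h⟩
  have m1 := hmod (a.1 + a.2) (by omega)
  have m2 := hmod (b.1 + b.2) (by omega)
  apply Prod.ext
  · omega
  · omega

theorem arc_ne (n N d : ℕ) (hn : 0 < n) (hd : 2 * (d + 1) < n) (a : ℕ × ℕ) (ha : a ∈ arcs n N d) :
    fin n hn a.1 ≠ fin n hn (a.1 + a.2) := by
  rw [mem_arcs] at ha
  have ha2 : 1 ≤ a.2 ∧ a.2 ≤ d + 1 := by rcases ha.2 with h | h <;> omega
  intro h
  simp only [fin, Fin.mk.injEq] at h
  rw [Nat.mod_eq_of_lt ha.1] at h
  by_cases h1 : a.1 + a.2 < n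
  · rw [Nat.mod_eq_of_lt h1] at h; omega
  · push Not at h1
    rw [Nat.mod_eq_sub_mod h1, Nat.mod_eq_of_lt (by omega)] at h; omega

/-- the parabola point set with the arcs as edges -/
noncomputable def parab (n N d : ℕ) (hn : 0 < n) : GeomGraph n where
  pt := fun i => ((i.val : ℝ), (i.val : ℝ) ^ 2)
  inj := by
    intro i j h
    simp only [Prod.mk.injEq, Nat.cast_inj] at h
    exact Fin.ext h.1
  gen := by
    intro i j k hij hik hjk hcol
    have hij' : (i.val : ℝ) ≠ j.val := fun h => hij (Fin.ext (by exact_mod_cast h))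
    have hik' : (i.val : ℝ) ≠ k.val := fun h => hik (Fin.ext (by exact_mod_cast h))
    have hjk' : (j.val : ℝ) ≠ k.val := fun h => hjk (Fin.ext (by exact_mod_cast h))
    rw [collinear_iff_of_mem (p₀ := ((i.val : ℝ), (i.val : ℝ) ^ 2)) (by simp)] at hcol
    obtain ⟨v, hv⟩ := hcol
    obtain ⟨r1, h1⟩ := hv ((j.val : ℝ), (j.val : ℝ) ^ 2) (by simp)
    obtain ⟨r2, h2⟩ := hv ((k.val : ℝ), (k.val : ℝ) ^ 2) (by simp)
    simp only [vadd_eq_add, Prod.fst_add, Prod.snd_add, Prod.smul_fst, Prod.smul_snd,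
      smul_eq_mul, Prod.ext_iff] at h1 h2
    obtain ⟨a1, a2⟩ := h1
    obtain ⟨b1, b2⟩ := h2
    have hz : ((j.val : ℝ) - i.val) * ((k.val : ℝ) - i.val) * ((k.val : ℝ) - j.val) = 0 := by
      have e1 : (j.val : ℝ) - i.val = r1 * v.1 := by linarith
      have e2 : (j.val : ℝ) ^ 2 - (i.val : ℝ) ^ 2 = r1 * v.2 := by linarith
      have e3 : (k.val : ℝ) - i.val = r2 * v.1 := by linarith
      have e4 : (k.val : ℝ) ^ 2 - (i.val : ℝ) ^ 2 = r2 * v.2 := by linarith
      have : ((j.val : ℝ) - i.val) * ((k.val : ℝ) ^ 2 - (i.val : ℝ) ^ 2)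
          = ((k.val : ℝ) - i.val) * ((j.val : ℝ) ^ 2 - (i.val : ℝ) ^ 2) := by
        rw [e1, e2, e3, e4]; ring
      linear_combination this
    rcases mul_eq_zero.1 hz with h | h
    · rcases mul_eq_zero.1 h with h | h
      · exact hij' (by linarith)
      · exact hik' (by linarith)
    · exact hjk' (by linarith)
  G := SimpleGraph.fromRel (fun u v => ∃ a ∈ arcs n N d, u = fin n hn a.1 ∧ v = fin n hn (a.1 + a.2))

theorem parab_edges (n N d : ℕ) (hn : 0 < n) (hd : 2 * (d + 1) < n) :
    (parab n N d hn).edges = (arcs n N d).image (arcEdge n hn) := by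
  classical
  ext e
  unfold GeomGraph.edges
  simp only [parab, mem_filter, mem_univ, true_and, SimpleGraph.fromRel_adj, mem_image]
  constructor
  · rintro ⟨hlt, _, ⟨a, ha, h1, h2⟩ | ⟨a, ha, h1, h2⟩⟩
    · refine ⟨a, ha, ?_⟩
      unfold arcEdge
      rw [← h1, ← h2, min_eq_left hlt.le, max_eq_right hlt.le]
    · refine ⟨a, ha, ?_⟩
      unfold arcEdge
      rw [← h1, ← h2, min_eq_right hlt.le, max_eq_left hlt.le]
  · rintro ⟨a, ha, rfl⟩
    have hne := arc_ne n N d hn hd a ha
    unfold arcEdge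
    rcases lt_or_gt_of_ne hne with h | h
    · simp only [min_eq_left h.le, max_eq_right h.le]
      exact ⟨h, hne, Or.inl ⟨a, ha, rfl, rfl⟩⟩
    · simp only [min_eq_right h.le, max_eq_left h.le]
      exact ⟨h, hne.symm, Or.inr ⟨a, ha, rfl, rfl⟩⟩

theorem parab_card (n N d : ℕ) (hn : 0 < n) (hd : 2 * (d + 1) < n) (hN : N ≤ n) :
    (parab n N d hn).edges.card = d * n + N := by
  rw [parab_edges n N d hn hd, card_image_of_injOn (arcEdge_inj n N d hn hd), card_arcs n N d hn hN]

/-- every line meets at most `2 w` edges of the construction -/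
theorem parab_met (n N d r w : ℕ) (hn : 0 < n) (hd : 2 * (d + 1) < n)
    (hDN : (d + 1) * N ≤ r * n) (hw : 2 * w = d * (d + 1) + 2 * r) (L : Set (ℝ × ℝ)) (hL : IsLine L) :
    ((parab n N d hn).met L).card ≤ 2 * w := by
  classical
  -- normalise the line
  obtain ⟨a, b, c, hab, hb, rfl⟩ : ∃ a b c : ℝ, (a ≠ 0 ∨ b ≠ 0) ∧ 0 ≤ b ∧
      L = {z | a * z.1 + b * z.2 = c} := by
    obtain ⟨a, b, c, hab, rfl⟩ := hL
    rcases le_total 0 b with h | h
    · exact ⟨a, b, c, hab, h, rfl⟩
    · refine ⟨-a, -b, -c, by simpa using hab, by linarith, ?_⟩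
      ext z
      change a * z.1 + b * z.2 = c ↔ -a * z.1 + -b * z.2 = -c
      constructor <;> intro h <;> linarith
  obtain ⟨α, β, hgap⟩ := two_gaps n hn (MM a b c) (fun i j k hij hjk hi hk =>
    MM_convex a b c hab hb i j k hij hjk hi hk)
  let A := fun γ : ℕ => (arcs n N d).filter (fun a => ∃ x, 1 ≤ x ∧ x ≤ a.2 ∧ (a.1 + x) % n = γ)
  have hsub : (parab n N d hn).met {z | a * z.1 + b * z.2 = c} ⊆ (A α ∪ A β).image (arcEdge n hn) := by
    intro e he
    unfold GeomGraph.met at he
    rw [mem_filter, parab_edges n N d hn hd, mem_image] at he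
    obtain ⟨⟨x, hx, rfl⟩, z, ⟨t1, t2, ht1, ht2, _, hz⟩, hzL⟩ := he
    refine mem_image.2 ⟨x, ?_, rfl⟩
    -- the endpoints
    have hne := arc_ne n N d hn hd x hx
    have hcomb : ∃ s1 s2 : ℝ, 0 < s1 ∧ 0 < s2 ∧
        s1 * FF a b c (x.1 % n) + s2 * FF a b c ((x.1 + x.2) % n) = 0 := by
      have hsum : t1 + t2 = 1 := by assumption
      have hz1 : a * z.1 + b * z.2 = c := hzL
      rw [← hz] at hz1
      have this : c = c * (t1 + t2) := by rw [hsum, mul_one]
      rcases lt_or_gt_of_ne hne with h | h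
      · refine ⟨t1, t2, ht1, ht2, ?_⟩
        have e1 : (arcEdge n hn x).1 = fin n hn x.1 := min_eq_left h.le
        have e2 : (arcEdge n hn x).2 = fin n hn (x.1 + x.2) := max_eq_right h.le
        rw [e1, e2] at hz1
        simp only [parab, Prod.fst_add, Prod.smul_fst, Prod.snd_add, Prod.smul_snd, smul_eq_mul,
          fin] at hz1
        unfold FF
        linear_combination hz1 + this
      · refine ⟨t2, t1, ht2, ht1, ?_⟩
        have e1 : (arcEdge n hn x).1 = fin n hn (x.1 + x.2) := min_eq_right h.le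
        have e2 : (arcEdge n hn x).2 = fin n hn x.1 := max_eq_left h.le
        rw [e1, e2] at hz1
        simp only [parab, Prod.fst_add, Prod.smul_fst, Prod.snd_add, Prod.smul_snd, smul_eq_mul,
          fin] at hz1
        unfold FF
        linear_combination hz1 + this
    obtain ⟨s1, s2, hs1, hs2, hs⟩ := hcomb
    have hne' : x.1 % n ≠ (x.1 + x.2) % n := fun h => hne (Fin.ext h)
    have hM := MM_of_met a b c hab hb _ _ hne' s1 s2 hs1 hs2 hs
    obtain ⟨y, hy1, hy2, hy3⟩ := walk n hn (MM a b c) x.1 x.2 hM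
    have := hgap ((x.1 + y) % n) (Nat.mod_lt _ hn) hy3
    rw [mem_union]
    rcases this with h | h
    · left; exact mem_filter.2 ⟨hx, y, hy1, hy2, h⟩
    · right; exact mem_filter.2 ⟨hx, y, hy1, hy2, h⟩
  have h1 := card_le_card hsub
  have h2 : ((A α ∪ A β).image (arcEdge n hn)).card ≤ (A α ∪ A β).card := card_image_le
  have h3 := card_union_le (A α) (A β)
  have h4 : (A α).card ≤ w := gap_count n N d r w α (by omega) hDN hw
  have h5 : (A β).card ≤ w := gap_count n N d r w β (by omega) hDN hw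
  omega

/-- adding one more edge -/
theorem add_edge {n : ℕ} (Γ : GeomGraph n) (t : ℕ) (ht : ∀ L, IsLine L → (Γ.met L).card ≤ t)
    (hlt : Γ.edges.card < n.choose 2) :
    ∃ Γ' : GeomGraph n, Γ'.edges.card = Γ.edges.card + 1 ∧
      ∀ L, IsLine L → (Γ'.met L).card ≤ t + 1 := by
  classical
  let all : Finset (Fin n × Fin n) := univ.filter (fun e => e.1 < e.2)
  have hall : all.card = n.choose 2 := by
    have h1 : (powersetCard 2 (univ : Finset (Fin n))).card = n.choose 2 := by simp
    rw [← h1]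
    apply card_bij (fun e _ => ({e.1, e.2} : Finset (Fin n)))
    · intro e he
      simp only [all, mem_filter, mem_univ, true_and] at he
      rw [mem_powersetCard]
      exact ⟨subset_univ _, card_pair (ne_of_lt he)⟩
    · intro e he f hf hef
      simp only [all, mem_filter, mem_univ, true_and] at he hf
      have m1 : e.1 = f.1 ∨ e.1 = f.2 := by
        have : e.1 ∈ ({f.1, f.2} : Finset (Fin n)) := by rw [← hef]; simp
        simpa using this
      have m2 : e.2 = f.1 ∨ e.2 = f.2 := by
        have : e.2 ∈ ({f.1, f.2} : Finset (Fin n)) := by rw [← hef]; simp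
        simpa using this
      rcases m1 with m1 | m1 <;> rcases m2 with m2 | m2
      · rw [m1, m2] at he; exact absurd he (lt_irrefl _)
      · exact Prod.ext m1 m2
      · rw [m1, m2] at he; exact absurd he (lt_asymm hf)
      · rw [m1, m2] at he; exact absurd he (lt_irrefl _)
    · intro s hs
      rw [mem_powersetCard, card_eq_two] at hs
      obtain ⟨_, x, y, hxy, rfl⟩ := hs
      rcases lt_or_gt_of_ne hxy with h | h
      · exact ⟨(x, y), by simp [all, h], rfl⟩
      · exact ⟨(y, x), by simp [all, h], pair_comm _ _⟩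
  have hsub : Γ.edges ⊆ all := by
    intro e he
    unfold GeomGraph.edges at he
    simp only [all, mem_filter, mem_univ, true_and] at he ⊢
    exact he.1
  obtain ⟨e0, he0, he0'⟩ : ∃ e0 ∈ all, e0 ∉ Γ.edges := by
    by_contra hcon
    push Not at hcon
    have := card_le_card (show all ⊆ Γ.edges from hcon)
    omega
  simp only [all, mem_filter, mem_univ, true_and] at he0
  let Γ' : GeomGraph n := { Γ with G := Γ.G ⊔ SimpleGraph.edge e0.1 e0.2 }
  have hedges : Γ'.edges = insert e0 Γ.edges := by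
    ext e
    unfold GeomGraph.edges
    simp only [Γ', mem_filter, mem_univ, true_and, mem_insert, SimpleGraph.sup_adj,
      SimpleGraph.edge_adj]
    constructor
    · rintro ⟨h1, h2 | ⟨h2, _⟩⟩
      · exact Or.inr ⟨h1, h2⟩
      · rcases h2 with ⟨h3, h4⟩ | ⟨h3, h4⟩
        · left; exact Prod.ext (by simpa using h3) (by simpa using h4)
        · exfalso
          rw [h3, h4] at h1
          exact lt_asymm h1 he0
    · rintro (h | ⟨h1, h2⟩)
      · rw [h]; exact ⟨he0, Or.inr ⟨Or.inl ⟨rfl, rfl⟩, ne_of_lt he0⟩⟩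
      · exact ⟨h1, Or.inl h2⟩
  refine ⟨Γ', by rw [hedges, card_insert_of_notMem he0'], ?_⟩
  intro L hL
  have h1 : Γ'.met L ⊆ insert e0 (Γ.met L) := by
    intro e he
    unfold GeomGraph.met at he ⊢
    rw [mem_filter, hedges, mem_insert] at he
    rw [mem_insert, mem_filter]
    rcases he.1 with h | h
    · exact Or.inl h
    · exact Or.inr ⟨h, he.2⟩
  have h2 := card_le_card h1
  have h3 := card_insert_le e0 (Γ.met L)
  have h4 := ht L hL
  omega

end Pool.Agent.T2H82.GeoLine
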