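import Mathlib

/-!
Counting edges of a graph whose vertex sets can be built one flip at a time with few cut edges.
-/

namespace Pool.Agent.T2H82.GeoLine

open Finset

/-- sets that can be reached from `∅` by adding and deleting single elements of `V`, all the
intermediate nonempty sets having load `< a` -/
inductive Reach {ι : Type*} [DecidableEq ι] (c : Finset ι → ℕ) (a : ℕ) (V : Finset ι) : Finset ι → Prop
  | base : Reach c a V ∅
  | ins (A : Finset ι) (v : ι) : Reach c a V A → v ∈ V → c (insert v A) < a → Reach c a V (insert v A)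
  | del (A : Finset ι) (v : ι) : Reach c a V A → c (A.erase v) < a → Reach c a V (A.erase v)

section
variable {ι : Type*} [DecidableEq ι]

theorem Reach.subset {c : Finset ι → ℕ} {a : ℕ} {V A : Finset ι} (h : Reach c a V A) : A ⊆ V := by
  induction h with
  | base => exact empty_subset _
  | ins A v _ hv _ ih => exact insert_subset hv ih
  | del A v _ _ ih => exact (erase_subset _ _).trans ih

theorem Reach.load {c : Finset ι → ℕ} {a : ℕ} {V A : Finset ι} (h : Reach c a V A) : A = ∅ ∨ c A < a := by
  cases h with
  | base => exact Or.inl rfl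
  | ins A v _ _ h => exact Or.inr h
  | del A v _ h => exact Or.inr h

theorem Reach.mono {c : Finset ι → ℕ} {a b : ℕ} (hab : a ≤ b) {V A : Finset ι} (h : Reach c a V A) :
    Reach c b V A := by
  induction h with
  | base => exact Reach.base
  | ins A v _ hv hc ih => exact Reach.ins A v ih hv (lt_of_lt_of_le hc hab)
  | del A v _ hc ih => exact Reach.del A v ih (lt_of_lt_of_le hc hab)

theorem Reach.size {c : Finset ι → ℕ} {a : ℕ} {V A : Finset ι} (h : Reach c a V A) :
    ∀ s ≤ A.card, ∃ X, Reach c a V X ∧ X.card = s := by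
  induction h with
  | base =>
    intro s hs
    exact ⟨∅, Reach.base, by simp at hs; simp [hs]⟩
  | ins A v hA hv hc ih =>
    intro s hs
    by_cases h : s ≤ A.card
    · exact ih s h
    · refine ⟨insert v A, Reach.ins A v hA hv hc, ?_⟩
      have := card_insert_le v A
      omega
  | del A v hA hc ih =>
    intro s hs
    exact ih s (hs.trans (card_le_card (erase_subset _ _)))

theorem Reach.restrict {c c' : Finset ι → ℕ} {a : ℕ} {V X A : Finset ι}
    (hcc : ∀ A, c' (A \ X) ≤ c A) (h : Reach c a V A) : Reach c' a (V \ X) (A \ X) := by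
  induction h with
  | base => simpa using Reach.base
  | ins A v hA hv hc ih =>
    by_cases hvX : v ∈ X
    · rwa [insert_sdiff_of_mem _ hvX]
    · have e : insert v A \ X = insert v (A \ X) := insert_sdiff_of_notMem _ hvX
      have := hcc (insert v A)
      rw [e] at this ⊢
      exact Reach.ins _ v ih (mem_sdiff.2 ⟨hv, hvX⟩) (lt_of_le_of_lt this hc)
  | del A v hA hc ih =>
    have e : A.erase v \ X = (A \ X).erase v := by
      ext z; simp only [mem_sdiff, mem_erase]; tauto
    have := hcc (A.erase v)
    rw [e] at this ⊢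
    exact Reach.del _ v ih (lt_of_le_of_lt this hc)

theorem Reach.all {c : Finset ι → ℕ} {a : ℕ} {V : Finset ι} (hc : ∀ A, c A < a) :
    ∀ A ⊆ V, Reach c a V A := by
  intro A
  induction A using Finset.induction_on with
  | empty => intro _; exact Reach.base
  | insert v A _ ih =>
    intro h
    exact Reach.ins A v (ih ((subset_insert _ _).trans h)) (h (mem_insert_self _ _)) (hc _)

/-- edges inside `V` -/
def inn (E : Finset (ι × ι)) (V : Finset ι) : Finset (ι × ι) := E.filter (fun e => e.1 ∈ V ∧ e.2 ∈ V)

/-- edges inside `V` with exactly one endpoint in `A` -/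
def cutS (E : Finset (ι × ι)) (V A : Finset ι) : Finset (ι × ι) :=
  E.filter (fun e => (e.1 ∈ V ∧ e.2 ∈ V) ∧ ¬ (e.1 ∈ A ↔ e.2 ∈ A))

def cut (E : Finset (ι × ι)) (V A : Finset ι) : ℕ := (cutS E V A).card

/-- edges between two sets -/
def cross (E : Finset (ι × ι)) (A B : Finset ι) : Finset (ι × ι) :=
  E.filter (fun e => (e.1 ∈ A ∧ e.2 ∈ B) ∨ (e.1 ∈ B ∧ e.2 ∈ A))

theorem inn_split (E : Finset (ι × ι)) (V X : Finset ι) (hX : X ⊆ V) :
    (inn E V).card = (inn E X).card + cut E V X + (inn E (V \ X)).card := by
  unfold cut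
  have hU : inn E V = (inn E X ∪ cutS E V X) ∪ inn E (V \ X) := by
    ext e
    simp only [inn, cutS, mem_union, mem_filter, mem_sdiff]
    constructor
    · rintro ⟨h1, h2, h3⟩
      by_cases a : e.1 ∈ X <;> by_cases b : e.2 ∈ X <;> simp [h1, h2, h3, a, b]
    · rintro ((⟨h1, h2, h3⟩ | ⟨h1, ⟨h2, h3⟩, _⟩) | ⟨h1, ⟨h2, _⟩, ⟨h3, _⟩⟩)
      · exact ⟨h1, hX h2, hX h3⟩
      · exact ⟨h1, h2, h3⟩
      · exact ⟨h1, h2, h3⟩
  have d1 : Disjoint (inn E X) (cutS E V X) := by
    rw [disjoint_left]; intro e
    simp only [inn, cutS, mem_filter]; tauto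
  have d2 : Disjoint (inn E X ∪ cutS E V X) (inn E (V \ X)) := by
    rw [disjoint_left]; intro e
    simp only [inn, cutS, mem_union, mem_filter, mem_sdiff]; tauto
  rw [hU, card_union_of_disjoint d2, card_union_of_disjoint d1]

theorem cut_restrict (E : Finset (ι × ι)) (V X A : Finset ι) :
    cut E (V \ X) (A \ X) ≤ cut E V A := by
  apply card_le_card
  intro e
  simp only [cutS, mem_filter, mem_sdiff]
  tauto

theorem inn_le_choose [LinearOrder ι] (E : Finset (ι × ι)) (hE : ∀ e ∈ E, e.1 < e.2) (V : Finset ι) :
    (inn E V).card ≤ V.card.choose 2 := by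
  rw [← card_powersetCard 2 V]
  apply card_le_card_of_injOn (fun e => ({e.1, e.2} : Finset ι))
  · intro e he
    rw [mem_coe, inn, mem_filter] at he
    refine mem_coe.2 (mem_powersetCard.2 ⟨?_, card_pair (ne_of_lt (hE e he.1))⟩)
    intro z hz
    simp only [mem_insert, mem_singleton] at hz
    rcases hz with rfl | rfl
    · exact he.2.1
    · exact he.2.2
  · intro e he f hf hef
    rw [mem_coe, inn, mem_filter] at he hf
    have h1 := hE e he.1
    have h2 := hE f hf.1
    simp only at hef
    have m1 : e.1 = f.1 ∨ e.1 = f.2 := by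
      have : e.1 ∈ ({f.1, f.2} : Finset ι) := by rw [← hef]; simp
      simpa using this
    have m2 : e.2 = f.1 ∨ e.2 = f.2 := by
      have : e.2 ∈ ({f.1, f.2} : Finset ι) := by rw [← hef]; simp
      simpa using this
    rcases m1 with m1 | m1 <;> rcases m2 with m2 | m2
    · rw [m1, m2] at h1; exact absurd h1 (lt_irrefl _)
    · exact Prod.ext m1 m2
    · rw [m1, m2] at h1; exact absurd h1 (lt_asymm h2)
    · rw [m1, m2] at h1; exact absurd h1 (lt_irrefl _)

/-- linear bound -/
theorem lin_bound [LinearOrder ι] (E : Finset (ι × ι)) (hE : ∀ e ∈ E, e.1 < e.2) (d r w : ℕ)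
    (hw : 2 * w = d * (d + 1) + 2 * r) :
    ∀ (V : Finset ι), Reach (cut E V) (w + 1) V V →
      (d + 1) * (inn E V).card ≤ (d * (d + 1) + r) * V.card := by
  intro V
  induction hn : V.card using Nat.strong_induction_on generalizing V with
  | _ n ih =>
    intro hR
    by_cases hsmall : V.card ≤ d + 1
    · have h1 := inn_le_choose E hE V
      have h2 : 2 * V.card.choose 2 ≤ d * V.card := by
        rw [Nat.choose_two_right]
        have h3 : 2 * (V.card * (V.card - 1) / 2) ≤ V.card * (V.card - 1) := Nat.mul_div_le _ _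
        have h4 : V.card * (V.card - 1) ≤ V.card * d := Nat.mul_le_mul_left _ (by omega)
        rw [mul_comm d]
        omega
      rw [hn] at h1 h2
      nlinarith [Nat.zero_le (d * n), Nat.zero_le (r * n), Nat.zero_le (d * d * n)]
    · push Not at hsmall
      obtain ⟨X, hX, hXc⟩ := hR.size (d + 1) hsmall.le
      have hXV := hX.subset
      have hcX : cut E V X ≤ w := by
        rcases hX.load with h | h
        · rw [h] at hXc; simp at hXc
        · omega
      have hs := inn_split E V X hXV
      have h1 := inn_le_choose E hE X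
      rw [hXc] at h1
      have h2 : 2 * (d + 1).choose 2 ≤ d * (d + 1) := by
        rw [Nat.choose_two_right]
        have h3 : 2 * ((d + 1) * (d + 1 - 1) / 2) ≤ (d + 1) * (d + 1 - 1) := Nat.mul_div_le _ _
        simp only [Nat.add_sub_cancel] at h3 ⊢
        rw [mul_comm d]; omega
      have hcard : (V \ X).card + (d + 1) = n := by
        rw [← hXc, ← hn]; exact card_sdiff_add_card_eq_card hXV
      have hR' : Reach (cut E (V \ X)) (w + 1) (V \ X) (V \ X) :=
        hR.restrict (fun A => cut_restrict E V X A)
      have h3 := ih (V \ X).card (by omega) (V \ X) rfl hR'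
      rw [hs]
      have h4 : 2 * ((inn E X).card + cut E V X) ≤ 2 * (d * (d + 1) + r) := by omega
      have h5 : (inn E X).card + cut E V X ≤ d * (d + 1) + r := by omega
      calc (d + 1) * ((inn E X).card + cut E V X + (inn E (V \ X)).card)
          = (d + 1) * ((inn E X).card + cut E V X) + (d + 1) * (inn E (V \ X)).card := by ring
        _ ≤ (d + 1) * (d * (d + 1) + r) + (d * (d + 1) + r) * (V \ X).card :=
            Nat.add_le_add (Nat.mul_le_mul_left _ h5) h3
        _ = (d * (d + 1) + r) * ((V \ X).card + (d + 1)) := by ring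
        _ = (d * (d + 1) + r) * n := by rw [hcard]

/-- block bound -/
theorem block_bound [LinearOrder ι] (E : Finset (ι × ι)) (hE : ∀ e ∈ E, e.1 < e.2) (a s : ℕ) :
    ∀ (q j : ℕ) (V : Finset ι), j ≤ q + 1 → V.card = (q + 1) * s + j →
      Reach (cut E V) (a + 1) V V →
      (inn E V).card ≤ j * (s + 1).choose 2 + (q + 1 - j) * s.choose 2 + q * a := by
  intro q
  induction q with
  | zero =>
    intro j V hj hV _
    have h1 := inn_le_choose E hE V
    rw [hV] at h1
    have : j = 0 ∨ j = 1 := by omega
    rcases this with rfl | rfl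
    · simpa using h1
    · simpa using h1
  | succ q ih =>
    intro j V hj hV hR
    have hsplit : ∀ (u : ℕ), u ≤ V.card → ∃ X ⊆ V, X.card = u ∧ cut E V X ≤ a := by
      intro u hu
      obtain ⟨X, hX, hXc⟩ := hR.size u hu
      refine ⟨X, hX.subset, hXc, ?_⟩
      rcases hX.load with h | h
      · rw [h]; simp [cut, cutS]
      · omega
    rcases Nat.eq_zero_or_pos j with rfl | hjpos
    · obtain ⟨X, hXV, hXc, hcut⟩ := hsplit s (by rw [hV]; nlinarith)
      have hs := inn_split E V X hXV
      have h1 := inn_le_choose E hE X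
      rw [hXc] at h1
      have hcard : (V \ X).card + s = V.card := by
        rw [← hXc]; exact card_sdiff_add_card_eq_card hXV
      have hcard' : (V \ X).card = (q + 1) * s + 0 := by
        have : V.card = (q + 1) * s + s := by rw [hV]; ring
        omega
      have h3 := ih 0 (V \ X) (by omega) hcard' (hR.restrict (fun A => cut_restrict E V X A))
      rw [hs]
      simp only [zero_mul, zero_add, Nat.sub_zero] at h3 ⊢
      nlinarith
    · obtain ⟨j, rfl⟩ : ∃ i, j = i + 1 := ⟨j - 1, by omega⟩
      obtain ⟨X, hXV, hXc, hcut⟩ := hsplit (s + 1) (by rw [hV]; nlinarith)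
      have hs := inn_split E V X hXV
      have h1 := inn_le_choose E hE X
      rw [hXc] at h1
      have hcard : (V \ X).card + (s + 1) = V.card := by
        rw [← hXc]; exact card_sdiff_add_card_eq_card hXV
      have hcard' : (V \ X).card = (q + 1) * s + j := by
        have : V.card = (q + 1) * s + j + (s + 1) := by rw [hV]; ring
        omega
      have h3 := ih j (V \ X) (by omega) hcard' (hR.restrict (fun A => cut_restrict E V X A))
      rw [hs]
      have e1 : q + 1 + 1 - (j + 1) = q + 1 - j := by omega
      rw [e1]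
      nlinarith

end

end Pool.Agent.T2H82.GeoLine
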