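import Mathlib

/-!
A Hex lemma for two point sets separated by a vertical line.
-/

namespace Pool.Agent.T2H82.GeoLine

open Finset Filter Topology

/-- telescoping along a linear order given by an injective key -/
theorem telescope {ι K : Type*} [DecidableEq ι] [LinearOrder K] (u : Finset ι → ℤ) (key : ι → K)
    (P : Finset ι) (hinj : Set.InjOn key (P : Set ι)) :
    ∑ q ∈ P, (u (insert q (P.filter (fun p => key q < key p))) - u (P.filter (fun p => key q < key p)))
      = u P - u ∅ := by
  classical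
  induction P using Finset.strongInduction with
  | H P ih =>
    rcases P.eq_empty_or_nonempty with rfl | hne
    · simp
    · obtain ⟨q0, hq0, hmin⟩ := P.exists_min_image key hne
      have hlt : ∀ q ∈ P, q ≠ q0 → key q0 < key q := fun q hq hne =>
        lt_of_le_of_ne (hmin q hq) (fun h => hne (hinj hq hq0 h.symm))
      have h0 : P.filter (fun p => key q0 < key p) = P.erase q0 := by
        ext p; simp only [mem_filter, mem_erase]
        constructor
        · rintro ⟨h1, h2⟩; exact ⟨fun h => by subst h; exact lt_irrefl _ h2, h1⟩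
        · rintro ⟨h1, h2⟩; exact ⟨h2, hlt p h2 h1⟩
      have h1 : ∀ q ∈ P.erase q0, P.filter (fun p => key q < key p)
          = (P.erase q0).filter (fun p => key q < key p) := by
        intro q hq
        have hq' := mem_erase.1 hq
        ext p; simp only [mem_filter, mem_erase]
        constructor
        · rintro ⟨h1, h2⟩
          refine ⟨⟨fun h => ?_, h1⟩, h2⟩
          subst h; exact lt_asymm h2 (hlt q hq'.2 hq'.1)
        · rintro ⟨⟨_, h1⟩, h2⟩; exact ⟨h1, h2⟩
      rw [← Finset.add_sum_erase P _ hq0, h0, Finset.insert_erase hq0]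
      rw [Finset.sum_congr rfl (fun q hq => by rw [h1 q hq])]
      rw [ih (P.erase q0) (Finset.erase_ssubset hq0) (hinj.mono (by simp))]
      ring

section
variable {ι : Type*} [DecidableEq ι] (x y : ι → ℝ)

/-- the line of slope `s` through `q` has intercept `y q - s * x q`; order of the points just before
slope `s` -/
def abm (s : ℝ) (p q : ι) : Prop :=
  y q - s * x q < y p - s * x p ∨ (y q - s * x q = y p - s * x p ∧ x q < x p)

/-- order just after slope `s` -/
def abp (s : ℝ) (p q : ι) : Prop :=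
  y q - s * x q < y p - s * x p ∨ (y q - s * x q = y p - s * x p ∧ x p < x q)

open scoped Classical in
/-- the term of `q` for an order relation `R` -/
noncomputable def term (u1 u2 : Finset ι → ℤ) (P1 P2 : Finset ι) (R : ι → ι → Prop) (q : ι) : ℤ :=
  u1 (P1.filter (fun p => R p q)) *
    (u2 (insert q (P2.filter (fun p => R p q))) - u2 (P2.filter (fun p => R p q)))

theorem term_congr (u1 u2 : Finset ι → ℤ) (P1 P2 : Finset ι) (R R' : ι → ι → Prop) (q : ι)
    (h1 : ∀ p ∈ P1, (R p q ↔ R' p q)) (h2 : ∀ p ∈ P2, (R p q ↔ R' p q)) :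
    term u1 u2 P1 P2 R q = term u1 u2 P1 P2 R' q := by
  unfold term
  classical
  simp only [Finset.filter_congr h1, Finset.filter_congr h2]

theorem abm_near (s0 : ℝ) (p q : ι) : ∀ᶠ s in 𝓝 s0,
    (s ≤ s0 → (abm x y s p q ↔ abm x y s0 p q)) ∧ (s0 < s → (abm x y s p q ↔ abp x y s0 p q)) := by
  rcases lt_trichotomy (y q - s0 * x q) (y p - s0 * x p) with h | h | h
  · have hev : ∀ᶠ s in 𝓝 s0, y q - s * x q < y p - s * x p := by
      have hc1 : ContinuousAt (fun s : ℝ => y q - s * x q) s0 := by fun_prop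
      have hc2 : ContinuousAt (fun s : ℝ => y p - s * x p) s0 := by fun_prop
      exact hc1.eventually_lt hc2 h
    filter_upwards [hev] with s hs
    unfold abm abp
    exact ⟨fun _ => ⟨fun _ => Or.inl h, fun _ => Or.inl hs⟩, fun _ => ⟨fun _ => Or.inl h, fun _ => Or.inl hs⟩⟩
  · refine Eventually.of_forall (fun s => ?_)
    have key : (y p - s * x p) - (y q - s * x q) = (s0 - s) * (x p - x q) := by linarith [h, mul_comm s0 (x p), mul_comm s0 (x q), (by ring : (s0 - s) * (x p - x q) = s0 * x p - s0 * x q - s * x p + s * x q)]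
    unfold abm abp
    rcases lt_trichotomy (x q) (x p) with hx | hx | hx
    · constructor
      · intro hs
        rcases eq_or_lt_of_le hs with rfl | hs
        · exact Iff.rfl
        · have : 0 < (s0 - s) * (x p - x q) := mul_pos (by linarith) (by linarith)
          exact ⟨fun _ => Or.inr ⟨h, hx⟩, fun _ => Or.inl (by linarith)⟩
      · intro hs
        have : (s0 - s) * (x p - x q) < 0 := mul_neg_of_neg_of_pos (by linarith) (by linarith)
        constructor
        · rintro (h1 | ⟨h1, h2⟩) <;> exfalso <;> linarith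
        · rintro (h1 | ⟨h1, h2⟩) <;> exfalso <;> linarith
    · have h0 : y q - s * x q = y p - s * x p := by
        have : (s0 - s) * (x p - x q) = 0 := by rw [hx]; ring
        linarith
      have h1 : ¬ (y q - s * x q < y p - s * x p) := by rw [h0]; exact lt_irrefl _
      have h2 : ¬ (y q - s0 * x q < y p - s0 * x p) := by rw [h]; exact lt_irrefl _
      have h3 : ¬ (x q < x p) := by rw [hx]; exact lt_irrefl _
      have h4 : ¬ (x p < x q) := by rw [hx]; exact lt_irrefl _
      simp [h1, h2, h3, h4]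
    · constructor
      · intro hs
        rcases eq_or_lt_of_le hs with rfl | hs
        · exact Iff.rfl
        · have : (s0 - s) * (x p - x q) < 0 := mul_neg_of_pos_of_neg (by linarith) (by linarith)
          constructor
          · rintro (h1 | ⟨h1, h2⟩) <;> exfalso <;> linarith
          · rintro (h1 | ⟨h1, h2⟩) <;> exfalso <;> linarith
      · intro hs
        have : 0 < (s0 - s) * (x p - x q) := mul_pos_of_neg_of_neg (by linarith) (by linarith)
        exact ⟨fun _ => Or.inr ⟨h, hx⟩, fun _ => Or.inl (by linarith)⟩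
  · have hev : ∀ᶠ s in 𝓝 s0, y p - s * x p < y q - s * x q := by
      have hc1 : ContinuousAt (fun s : ℝ => y q - s * x q) s0 := by fun_prop
      have hc2 : ContinuousAt (fun s : ℝ => y p - s * x p) s0 := by fun_prop
      exact hc2.eventually_lt hc1 h
    filter_upwards [hev] with s hs
    unfold abm abp
    constructor
    · intro _
      constructor
      · rintro (h1 | ⟨h1, h2⟩) <;> exfalso <;> linarith
      · rintro (h1 | ⟨h1, h2⟩) <;> exfalso <;> linarith
    · intro _
      constructor
      · rintro (h1 | ⟨h1, h2⟩) <;> exfalso <;> linarith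
      · rintro (h1 | ⟨h1, h2⟩) <;> exfalso <;> linarith


open scoped Classical in
/-- points of `P` strictly above the line of slope `s` through `q` -/
noncomputable def sab (s : ℝ) (P : Finset ι) (q : ι) : Finset ι :=
  P.filter (fun p => y q - s * x q < y p - s * x p)

/-- the set of `P` above `q`, with ties broken by `c`. -/
theorem filter_abm_of_tie (s : ℝ) (P : Finset ι) (q z : ι) (hz : z ∈ P) (hzq : z ≠ q)
    (htie : y z - s * x z = y q - s * x q)
    (honly : ∀ w ∈ P, w ≠ q → y w - s * x w = y q - s * x q → w = z) :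
    (x q < x z → (∀ p ∈ P, (abm x y s p q ↔ p ∈ insert z (sab x y s P q)))
        ∧ (∀ p ∈ P, (abp x y s p q ↔ p ∈ sab x y s P q)))
    ∧ (x z < x q → (∀ p ∈ P, (abm x y s p q ↔ p ∈ sab x y s P q))
        ∧ (∀ p ∈ P, (abp x y s p q ↔ p ∈ insert z (sab x y s P q)))) := by
  classical
  unfold abm abp sab
  constructor
  · intro hx
    constructor
    · intro p hp
      simp only [mem_insert, mem_filter]
      constructor
      · rintro (h | ⟨h1, h2⟩)
        · exact Or.inr ⟨hp, h⟩
        · left
          exact honly p hp (fun h => by subst h; exact lt_irrefl _ h2) h1.symm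
      · rintro (h | ⟨_, h⟩)
        · subst h; exact Or.inr ⟨htie.symm, hx⟩
        · exact Or.inl h
    · intro p hp
      simp only [mem_filter]
      constructor
      · rintro (h | ⟨h1, h2⟩)
        · exact ⟨hp, h⟩
        · have := honly p hp (fun h => by subst h; exact lt_irrefl _ h2) h1.symm
          subst this; exact absurd hx (lt_asymm h2)
      · rintro ⟨_, h⟩; exact Or.inl h
  · intro hx
    constructor
    · intro p hp
      simp only [mem_filter]
      constructor
      · rintro (h | ⟨h1, h2⟩)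
        · exact ⟨hp, h⟩
        · have := honly p hp (fun h => by subst h; exact lt_irrefl _ h2) h1.symm
          subst this; exact absurd hx (lt_asymm h2)
      · rintro ⟨_, h⟩; exact Or.inl h
    · intro p hp
      simp only [mem_insert, mem_filter]
      constructor
      · rintro (h | ⟨h1, h2⟩)
        · exact Or.inr ⟨hp, h⟩
        · left
          exact honly p hp (fun h => by subst h; exact lt_irrefl _ h2) h1.symm
      · rintro (h | ⟨_, h⟩)
        · subst h; exact Or.inr ⟨htie.symm, hx⟩
        · exact Or.inl h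

theorem filter_of_no_tie (s : ℝ) (P : Finset ι) (q : ι)
    (hno : ∀ w ∈ P, w ≠ q → y w - s * x w ≠ y q - s * x q) :
    (∀ p ∈ P, (abm x y s p q ↔ p ∈ sab x y s P q)) ∧ (∀ p ∈ P, (abp x y s p q ↔ p ∈ sab x y s P q)) := by
  classical
  unfold abm abp sab
  constructor
  · intro p hp
    simp only [mem_filter]
    constructor
    · rintro (h | ⟨h1, h2⟩)
      · exact ⟨hp, h⟩
      · exact absurd h1.symm (hno p hp (fun h => by subst h; exact lt_irrefl _ h2))
    · rintro ⟨_, h⟩; exact Or.inl h
  · intro p hp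
    simp only [mem_filter]
    constructor
    · rintro (h | ⟨h1, h2⟩)
      · exact ⟨hp, h⟩
      · exact absurd h1.symm (hno p hp (fun h => by subst h; exact lt_irrefl _ h2))
    · rintro ⟨_, h⟩; exact Or.inl h

open scoped Classical in
theorem term_eq (u1 u2 : Finset ι → ℤ) (P1 P2 : Finset ι) (R : ι → ι → Prop) (q : ι)
    (S1 S2 : Finset ι) (hS1 : S1 ⊆ P1) (hS2 : S2 ⊆ P2)
    (h1 : ∀ p ∈ P1, (R p q ↔ p ∈ S1)) (h2 : ∀ p ∈ P2, (R p q ↔ p ∈ S2)) :
    term u1 u2 P1 P2 R q = u1 S1 * (u2 (insert q S2) - u2 S2) := by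
  unfold term
  have e1 : P1.filter (fun p => R p q) = S1 := by
    ext p; simp only [mem_filter]
    exact ⟨fun ⟨a, b⟩ => (h1 p a).1 b, fun h => ⟨hS1 h, (h1 p (hS1 h)).2 h⟩⟩
  have e2 : P2.filter (fun p => R p q) = S2 := by
    ext p; simp only [mem_filter]
    exact ⟨fun ⟨a, b⟩ => (h2 p a).1 b, fun h => ⟨hS2 h, (h2 p (hS2 h)).2 h⟩⟩
  rw [e1, e2]

theorem sab_subset (s : ℝ) (P : Finset ι) (q : ι) : sab x y s P q ⊆ P := by
  classical
  unfold sab; exact filter_subset _ _

/-- the key step: the two one-sided sums agree -/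
theorem sum_abm_eq_abp (u1 u2 : Finset ι → ℤ) (P1 P2 : Finset ι)
    (hsep : ∀ p ∈ P1, ∀ q ∈ P2, x p < x q)
    (hinj : ∀ i ∈ P1 ∪ P2, ∀ j ∈ P1 ∪ P2, x i = x j → y i = y j → i = j)
    (hgen : ∀ s : ℝ, ∀ i ∈ P1 ∪ P2, ∀ j ∈ P1 ∪ P2, ∀ k ∈ P1 ∪ P2, i ≠ j → i ≠ k → j ≠ k →
      y i - s * x i = y j - s * x j → y j - s * x j = y k - s * x k → False)
    (hbad : ∀ s : ℝ, ∀ p ∈ P1, ∀ q ∈ P2, y p - s * x p = y q - s * x q →
      (u1 (insert p (sab x y s P1 q)) - u1 (sab x y s P1 q)) *
        (u2 (insert q (sab x y s P2 q)) - u2 (sab x y s P2 q)) = 0)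
    (s : ℝ) :
    ∑ q ∈ P2, term u1 u2 P1 P2 (abm x y s) q = ∑ q ∈ P2, term u1 u2 P1 P2 (abp x y s) q := by
  classical
  have hdis : ∀ p ∈ P1, ∀ q ∈ P2, p ≠ q := fun p hp q hq h => by
    subst h; exact lt_irrefl _ (hsep p hp p hq)
  rw [← sub_eq_zero, ← Finset.sum_sub_distrib]
  -- partner
  let partner : ι → ι := fun q =>
    if h : ∃ z ∈ P2, z ≠ q ∧ y z - s * x z = y q - s * x q then h.choose else q
  have hpart : ∀ q ∈ P2, ∀ z ∈ P2, z ≠ q → y z - s * x z = y q - s * x q → partner q = z := by
    intro q hq z hz hzq htie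
    have hex : ∃ z ∈ P2, z ≠ q ∧ y z - s * x z = y q - s * x q := ⟨z, hz, hzq, htie⟩
    have hp : partner q = hex.choose := by simp only [partner]; rw [dif_pos hex]
    obtain ⟨h1, h2, h3⟩ := hex.choose_spec
    rw [hp]
    by_contra hne
    exact hgen s z (mem_union_right _ hz) q (mem_union_right _ hq) hex.choose (mem_union_right _ h1)
      hzq (fun h => hne h.symm) (fun h => h2 h.symm) htie h3.symm
  have hnopart : ∀ q, (¬ ∃ z ∈ P2, z ≠ q ∧ y z - s * x z = y q - s * x q) → partner q = q := by
    intro q h; simp only [partner]; rw [dif_neg h]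
  -- no partner in P2: terms agree
  have hzero : ∀ q ∈ P2, (¬ ∃ z ∈ P2, z ≠ q ∧ y z - s * x z = y q - s * x q) →
      term u1 u2 P1 P2 (abm x y s) q - term u1 u2 P1 P2 (abp x y s) q = 0 := by
    intro q hq hno
    have hno2 : ∀ w ∈ P2, w ≠ q → y w - s * x w ≠ y q - s * x q := fun w hw hwq h => hno ⟨w, hw, hwq, h⟩
    obtain ⟨a2, b2⟩ := filter_of_no_tie x y s P2 q hno2
    by_cases h1 : ∃ z ∈ P1, y z - s * x z = y q - s * x q
    · obtain ⟨z, hz, htie⟩ := h1
      have hzq := hdis z hz q hq
      have honly : ∀ w ∈ P1, w ≠ q → y w - s * x w = y q - s * x q → w = z := by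
        intro w hw hwq hw2
        by_contra hne
        exact hgen s w (mem_union_left _ hw) z (mem_union_left _ hz) q (mem_union_right _ hq)
          hne hwq hzq (hw2.trans htie.symm) htie
      obtain ⟨a1, b1⟩ := (filter_abm_of_tie x y s P1 q z hz hzq htie honly).2 (hsep z hz q hq)
      rw [term_eq u1 u2 P1 P2 (abm x y s) q (sab x y s P1 q) (sab x y s P2 q)
          (sab_subset x y s P1 q) (sab_subset x y s P2 q) a1 a2,
        term_eq u1 u2 P1 P2 (abp x y s) q (insert z (sab x y s P1 q)) (sab x y s P2 q)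
          (insert_subset hz (sab_subset x y s P1 q)) (sab_subset x y s P2 q) b1 b2]
      have := hbad s z hz q hq htie
      linear_combination -this
    · have hno1 : ∀ w ∈ P1, w ≠ q → y w - s * x w ≠ y q - s * x q := fun w hw _ h => h1 ⟨w, hw, h⟩
      obtain ⟨a1, b1⟩ := filter_of_no_tie x y s P1 q hno1
      rw [term_eq u1 u2 P1 P2 (abm x y s) q (sab x y s P1 q) (sab x y s P2 q)
          (sab_subset x y s P1 q) (sab_subset x y s P2 q) a1 a2,
        term_eq u1 u2 P1 P2 (abp x y s) q (sab x y s P1 q) (sab x y s P2 q)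
          (sab_subset x y s P1 q) (sab_subset x y s P2 q) b1 b2]
      ring
  -- a pair in P2
  have hpair : ∀ q ∈ P2, ∀ z ∈ P2, z ≠ q → y z - s * x z = y q - s * x q → x q < x z →
      (term u1 u2 P1 P2 (abm x y s) q - term u1 u2 P1 P2 (abp x y s) q) +
      (term u1 u2 P1 P2 (abm x y s) z - term u1 u2 P1 P2 (abp x y s) z) = 0 := by
    intro q hq z hz hzq htie hx
    have honly2 : ∀ w ∈ P2, w ≠ q → y w - s * x w = y q - s * x q → w = z := by
      intro w hw hwq hw2
      by_contra hne
      exact hgen s w (mem_union_right _ hw) z (mem_union_right _ hz) q (mem_union_right _ hq)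
          hne hwq hzq (hw2.trans htie.symm) htie
    have honly2' : ∀ w ∈ P2, w ≠ z → y w - s * x w = y z - s * x z → w = q := by
      intro w hw hwz hw2
      by_contra hne
      exact hgen s w (mem_union_right _ hw) z (mem_union_right _ hz) q (mem_union_right _ hq)
          hwz hne hzq hw2 htie
    have hno1 : ∀ w ∈ P1, w ≠ q → y w - s * x w ≠ y q - s * x q := by
      intro w hw hwq hw2
      exact hgen s w (mem_union_left _ hw) z (mem_union_right _ hz) q (mem_union_right _ hq)
        (hdis w hw z hz) hwq hzq (hw2.trans htie.symm) htie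
    have hno1' : ∀ w ∈ P1, w ≠ z → y w - s * x w ≠ y z - s * x z := by
      intro w hw hwz hw2
      exact hgen s w (mem_union_left _ hw) z (mem_union_right _ hz) q (mem_union_right _ hq)
        hwz (hdis w hw q hq) hzq hw2 htie
    obtain ⟨a1, b1⟩ := filter_of_no_tie x y s P1 q hno1
    obtain ⟨a1', b1'⟩ := filter_of_no_tie x y s P1 z hno1'
    obtain ⟨a2, b2⟩ := (filter_abm_of_tie x y s P2 q z hz hzq htie honly2).1 hx
    obtain ⟨a2', b2'⟩ := (filter_abm_of_tie x y s P2 z q hq (Ne.symm hzq) htie.symm honly2').2 hx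
    have e1 : sab x y s P1 z = sab x y s P1 q := by unfold sab; rw [htie]
    have e2 : sab x y s P2 z = sab x y s P2 q := by unfold sab; rw [htie]
    rw [e1] at a1' b1'
    rw [e2] at a2' b2'
    rw [term_eq u1 u2 P1 P2 (abm x y s) q _ _ (sab_subset x y s P1 q)
          (insert_subset hz (sab_subset x y s P2 q)) a1 a2,
        term_eq u1 u2 P1 P2 (abp x y s) q _ _ (sab_subset x y s P1 q) (sab_subset x y s P2 q) b1 b2,
        term_eq u1 u2 P1 P2 (abm x y s) z _ _ (sab_subset x y s P1 q) (sab_subset x y s P2 q) a1' a2',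
        term_eq u1 u2 P1 P2 (abp x y s) z _ _ (sab_subset x y s P1 q)
          (insert_subset hq (sab_subset x y s P2 q)) b1' b2']
    rw [Finset.insert_comm q z]
    ring
  have hpair' : ∀ q ∈ P2, ∀ z ∈ P2, z ≠ q → y z - s * x z = y q - s * x q →
      (term u1 u2 P1 P2 (abm x y s) q - term u1 u2 P1 P2 (abp x y s) q) +
      (term u1 u2 P1 P2 (abm x y s) z - term u1 u2 P1 P2 (abp x y s) z) = 0 := by
    intro q hq z hz hzq htie
    rcases lt_trichotomy (x q) (x z) with h | h | h
    · exact hpair q hq z hz hzq htie h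
    · exfalso
      apply hzq
      apply hinj z (mem_union_right _ hz) q (mem_union_right _ hq) h.symm
      rw [h] at htie; linarith
    · rw [add_comm]
      exact hpair z hz q hq (Ne.symm hzq) htie.symm h
  refine Finset.sum_involution (fun q _ => partner q) ?_ ?_ ?_ ?_
  · intro q hq
    by_cases hex : ∃ z ∈ P2, z ≠ q ∧ y z - s * x z = y q - s * x q
    · obtain ⟨z, hz, hzq, htie⟩ := hex
      simp only [hpart q hq z hz hzq htie]
      exact hpair' q hq z hz hzq htie
    · simp only [hnopart q hex]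
      rw [hzero q hq hex]; rfl
  · intro q hq hne
    by_cases hex : ∃ z ∈ P2, z ≠ q ∧ y z - s * x z = y q - s * x q
    · obtain ⟨z, hz, hzq, htie⟩ := hex
      simp only [hpart q hq z hz hzq htie]
      exact hzq
    · exact absurd (hzero q hq hex) hne
  · intro q hq
    by_cases hex : ∃ z ∈ P2, z ≠ q ∧ y z - s * x z = y q - s * x q
    · obtain ⟨z, hz, hzq, htie⟩ := hex
      simp only [hpart q hq z hz hzq htie]
      exact hz
    · simp only [hnopart q hex]; exact hq
  · intro q hq
    by_cases hex : ∃ z ∈ P2, z ≠ q ∧ y z - s * x z = y q - s * x q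
    · obtain ⟨z, hz, hzq, htie⟩ := hex
      simp only [hpart q hq z hz hzq htie]
      exact hpart z hz q hq (Ne.symm hzq) htie.symm
    · simp only [hnopart q hex]

/-- **Hex lemma.**  `P1` is to the left of `P2`.  If the integer functions `u1`, `u2` on finite sets
satisfy `u1 P1 ≠ u1 ∅` and `u2 P2 ≠ u2 ∅` then there is a line through some `p ∈ P1` and some `q ∈ P2`
such that, `S` being the set of points strictly above it, adding `p` changes `u1` and adding `q`
changes `u2`. -/
theorem hex (u1 u2 : Finset ι → ℤ) (P1 P2 : Finset ι)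
    (hsep : ∀ p ∈ P1, ∀ q ∈ P2, x p < x q)
    (hinj : ∀ i ∈ P1 ∪ P2, ∀ j ∈ P1 ∪ P2, x i = x j → y i = y j → i = j)
    (hgen : ∀ s : ℝ, ∀ i ∈ P1 ∪ P2, ∀ j ∈ P1 ∪ P2, ∀ k ∈ P1 ∪ P2, i ≠ j → i ≠ k → j ≠ k →
      y i - s * x i = y j - s * x j → y j - s * x j = y k - s * x k → False)
    (h1 : u1 P1 ≠ u1 ∅) (h2 : u2 P2 ≠ u2 ∅) :
    ∃ s : ℝ, ∃ p ∈ P1, ∃ q ∈ P2, y p - s * x p = y q - s * x q ∧
      u1 (insert p (sab x y s P1 q)) ≠ u1 (sab x y s P1 q) ∧
      u2 (insert q (sab x y s P2 q)) ≠ u2 (sab x y s P2 q) := by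
  classical
  by_contra hcon
  push Not at hcon
  have hbad : ∀ s : ℝ, ∀ p ∈ P1, ∀ q ∈ P2, y p - s * x p = y q - s * x q →
      (u1 (insert p (sab x y s P1 q)) - u1 (sab x y s P1 q)) *
        (u2 (insert q (sab x y s P2 q)) - u2 (sab x y s P2 q)) = 0 := by
    intro s p hp q hq htie
    by_cases h : u1 (insert p (sab x y s P1 q)) = u1 (sab x y s P1 q)
    · rw [h]; ring
    · rw [hcon s p hp q hq htie h]; ring
  have hstep := sum_abm_eq_abp x y u1 u2 P1 P2 hsep hinj hgen hbad
  let F : ℝ → ℤ := fun s => ∑ q ∈ P2, term u1 u2 P1 P2 (abm x y s) q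
  have hloc : IsLocallyConstant F := by
    rw [IsLocallyConstant.iff_eventually_eq]
    intro s0
    have hev : ∀ᶠ s in 𝓝 s0, ∀ p ∈ P1 ∪ P2, ∀ q ∈ P2,
        (s ≤ s0 → (abm x y s p q ↔ abm x y s0 p q)) ∧ (s0 < s → (abm x y s p q ↔ abp x y s0 p q)) := by
      rw [Filter.eventually_all_finset]
      intro p _
      rw [Filter.eventually_all_finset]
      intro q _
      exact abm_near x y s0 p q
    filter_upwards [hev] with s hs
    rcases le_or_gt s s0 with h | h
    · refine Finset.sum_congr rfl (fun q hq => ?_)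
      exact term_congr u1 u2 P1 P2 _ _ q (fun p hp => (hs p (mem_union_left _ hp) q hq).1 h)
        (fun p hp => (hs p (mem_union_right _ hp) q hq).1 h)
    · change ∑ q ∈ P2, term u1 u2 P1 P2 (abm x y s) q = ∑ q ∈ P2, term u1 u2 P1 P2 (abm x y s0) q
      rw [hstep s0]
      refine Finset.sum_congr rfl (fun q hq => ?_)
      exact term_congr u1 u2 P1 P2 _ _ q (fun p hp => (hs p (mem_union_left _ hp) q hq).2 h)
        (fun p hp => (hs p (mem_union_right _ hp) q hq).2 h)
  -- the value far left
  have htel : ∀ s : ℝ, ∑ q ∈ P2, (u2 (insert q (P2.filter (fun p => abm x y s p q)))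
      - u2 (P2.filter (fun p => abm x y s p q))) = u2 P2 - u2 ∅ := by
    intro s
    have hk := telescope u2 (fun z => (toLex (y z - s * x z, x z) : ℝ ×ₗ ℝ)) P2 (by
      intro a ha b hb hab
      simp only [EmbeddingLike.apply_eq_iff_eq, Prod.mk.injEq] at hab
      apply hinj a (mem_union_right _ ha) b (mem_union_right _ hb) hab.2
      have h := hab.1
      rw [hab.2] at h; linarith)
    rw [← hk]
    refine Finset.sum_congr rfl (fun q hq => ?_)
    have : P2.filter (fun p => abm x y s p q)
        = P2.filter (fun p => (toLex (y q - s * x q, x q) : ℝ ×ₗ ℝ) < toLex (y p - s * x p, x p)) := by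
      apply Finset.filter_congr
      intro p _
      rw [Prod.Lex.toLex_lt_toLex]
      rfl
    rw [this]
  have hneg : ∃ s : ℝ, ∀ p ∈ P1, ∀ q ∈ P2, y p - s * x p < y q - s * x q := by
    have hev : ∀ᶠ s : ℝ in atBot, ∀ p ∈ P1, ∀ q ∈ P2, y p - s * x p < y q - s * x q := by
      rw [Filter.eventually_all_finset]
      intro p hp
      rw [Filter.eventually_all_finset]
      intro q hq
      filter_upwards [Filter.eventually_lt_atBot ((y q - y p) / (x q - x p))] with s hs
      have hx : 0 < x q - x p := sub_pos.2 (hsep p hp q hq)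
      rw [lt_div_iff₀ hx] at hs
      nlinarith
    exact hev.exists
  have hpos : ∃ s : ℝ, ∀ p ∈ P1, ∀ q ∈ P2, y q - s * x q < y p - s * x p := by
    have hev : ∀ᶠ s : ℝ in atTop, ∀ p ∈ P1, ∀ q ∈ P2, y q - s * x q < y p - s * x p := by
      rw [Filter.eventually_all_finset]
      intro p hp
      rw [Filter.eventually_all_finset]
      intro q hq
      filter_upwards [Filter.eventually_gt_atTop ((y q - y p) / (x q - x p))] with s hs
      have hx : 0 < x q - x p := sub_pos.2 (hsep p hp q hq)
      rw [div_lt_iff₀ hx] at hs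
      nlinarith
    exact hev.exists
  obtain ⟨s1, hs1⟩ := hneg
  obtain ⟨s2, hs2⟩ := hpos
  have hF1 : F s1 = u1 ∅ * (u2 P2 - u2 ∅) := by
    rw [← htel s1, Finset.mul_sum]
    refine Finset.sum_congr rfl (fun q hq => ?_)
    unfold term
    have : P1.filter (fun p => abm x y s1 p q) = ∅ := by
      apply Finset.filter_false_of_mem
      intro p hp h
      have := hs1 p hp q hq
      rcases h with h | ⟨h, _⟩ <;> linarith
    rw [this]
  have hF2 : F s2 = u1 P1 * (u2 P2 - u2 ∅) := by
    rw [← htel s2, Finset.mul_sum]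
    refine Finset.sum_congr rfl (fun q hq => ?_)
    unfold term
    have : P1.filter (fun p => abm x y s2 p q) = P1 := by
      apply Finset.filter_true_of_mem
      intro p hp
      exact Or.inl (hs2 p hp q hq)
    rw [this]
  have hFF : F s1 = F s2 := hloc.apply_eq_of_preconnectedSpace s1 s2
  rw [hF1, hF2] at hFF
  have : (u1 ∅ - u1 P1) * (u2 P2 - u2 ∅) = 0 := by linarith
  rcases mul_eq_zero.1 this with h | h
  · exact h1 (by linarith)
  · exact h2 (by linarith)

end

end Pool.Agent.T2H82.GeoLine
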