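import Mathlib
import Pool.Agent.T2H82.GeoLine.Defs
import Pool.Agent.T2H82.GeoLine.Hex
import Pool.Agent.T2H82.GeoLine.Count

/-!
From lines to cuts.
-/

namespace Pool.Agent.T2H82.GeoLine

open Finset Filter Topology

/-- three points with vanishing determinant are collinear -/
theorem collinear_of_det (p q r : ℝ × ℝ) (hpq : p ≠ q)
    (h : (q.1 - p.1) * (r.2 - p.2) = (r.1 - p.1) * (q.2 - p.2)) : Collinear ℝ {p, q, r} := by
  rw [collinear_iff_of_mem (p₀ := p) (by simp)]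
  refine ⟨q - p, ?_⟩
  intro z hz
  simp only [Set.mem_insert_iff, Set.mem_singleton_iff] at hz
  rcases hz with rfl | rfl | rfl
  · exact ⟨0, by simp⟩
  · exact ⟨1, by simp⟩
  · by_cases h1 : q.1 - p.1 = 0
    · have h2 : q.2 - p.2 ≠ 0 := by
        intro h2
        apply hpq
        exact Prod.ext (by linarith) (by linarith)
      have h3 : z.1 - p.1 = 0 := by
        rw [h1, zero_mul] at h
        rcases mul_eq_zero.1 h.symm with h | h
        · exact h
        · exact absurd h h2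
      refine ⟨(z.2 - p.2) / (q.2 - p.2), ?_⟩
      apply Prod.ext
      · simp [h1]; linarith
      · simp
        field_simp
        ring
    · refine ⟨(z.1 - p.1) / (q.1 - p.1), ?_⟩
      apply Prod.ext
      · simp
        field_simp
        ring
      · simp
        field_simp
        linarith

/-- perturbing a line through `p` and `q` -/
theorem perturb {ι : Type*} [Fintype ι] (x y : ι → ℝ) (s : ℝ) (p q : ι) (hx : x p < x q)
    (htie : y p - s * x p = y q - s * x q)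
    (hoth : ∀ z, z ≠ p → z ≠ q → y z - s * x z ≠ y q - s * x q) (σp σq : Prop) :
    ∃ s' c' : ℝ, (∀ z, y z - s' * x z ≠ c') ∧
      (∀ z, z ≠ p → z ≠ q → (c' < y z - s' * x z ↔ y q - s * x q < y z - s * x z)) ∧
      (c' < y p - s' * x p ↔ σp) ∧ (c' < y q - s' * x q ↔ σq) := by
  classical
  have hpq : x p - x q ≠ 0 := by linarith
  obtain ⟨tp, htp, htp'⟩ : ∃ t : ℝ, (0 < t ↔ σp) ∧ t ≠ 0 := by
    by_cases h : σp
    · exact ⟨1, by simp [h], one_ne_zero⟩
    · exact ⟨-1, by simp [h], by norm_num⟩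
  obtain ⟨tq, htq, htq'⟩ : ∃ t : ℝ, (0 < t ↔ σq) ∧ t ≠ 0 := by
    by_cases h : σq
    · exact ⟨1, by simp [h], one_ne_zero⟩
    · exact ⟨-1, by simp [h], by norm_num⟩
  set α := (tp - tq) / (x p - x q) with hα
  set β := tp - α * x p with hβ
  have hq' : α * x q + β = tq := by
    rw [hβ, hα]; field_simp; ring
  have hp' : α * x p + β = tp := by rw [hβ]; ring
  set c0 := y q - s * x q with hc0
  -- F η z = y z - (s - η α) x z - (c0 - η β)
  have hev : ∀ᶠ η : ℝ in 𝓝 0, ∀ z ∈ (univ : Finset ι), z ≠ p → z ≠ q →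
      ((c0 - η * β < y z - (s - η * α) * x z ↔ c0 < y z - s * x z) ∧
        y z - (s - η * α) * x z ≠ c0 - η * β) := by
    rw [Filter.eventually_all_finset]
    intro z _
    by_cases hz : z ≠ p ∧ z ≠ q
    · have h0 := hoth z hz.1 hz.2
      have hc1 : ContinuousAt (fun η : ℝ => c0 - η * β) 0 := by fun_prop
      have hc2 : ContinuousAt (fun η : ℝ => y z - (s - η * α) * x z) 0 := by fun_prop
      rcases lt_or_gt_of_ne h0 with h | h
      · have h' : y z - (s - 0 * α) * x z < c0 - 0 * β := by simpa using h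
        filter_upwards [hc2.eventually_lt hc1 h'] with η hη _ _
        exact ⟨⟨fun h1 => absurd hη (lt_asymm h1), fun h1 => absurd h (lt_asymm h1)⟩, ne_of_lt hη⟩
      · have h' : c0 - 0 * β < y z - (s - 0 * α) * x z := by simpa using h
        filter_upwards [hc1.eventually_lt hc2 h'] with η hη _ _
        exact ⟨⟨fun _ => h, fun _ => hη⟩, (ne_of_lt hη).symm⟩
    · exact Eventually.of_forall (fun η h1 h2 => absurd ⟨h1, h2⟩ hz)
  have hev2 : ∀ᶠ η : ℝ in 𝓝[>] 0, (∀ z ∈ (univ : Finset ι), z ≠ p → z ≠ q →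
      ((c0 - η * β < y z - (s - η * α) * x z ↔ c0 < y z - s * x z) ∧
        y z - (s - η * α) * x z ≠ c0 - η * β)) ∧ 0 < η :=
    (hev.filter_mono nhdsWithin_le_nhds).and self_mem_nhdsWithin
  obtain ⟨η, hη, hpos⟩ := hev2.exists
  have ep : y p - (s - η * α) * x p - (c0 - η * β) = η * tp := by
    rw [← hp']; linear_combination htie
  have eq : y q - (s - η * α) * x q - (c0 - η * β) = η * tq := by
    rw [← hq']; ring
  refine ⟨s - η * α, c0 - η * β, ?_, ?_, ?_, ?_⟩
  · intro z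
    by_cases h1 : z = p
    · subst h1
      intro h
      have : η * tp = 0 := by rw [← ep, h]; ring
      rcases mul_eq_zero.1 this with h | h
      · exact hpos.ne' h
      · exact htp' h
    · by_cases h2 : z = q
      · subst h2
        intro h
        have : η * tq = 0 := by rw [← eq, h]; ring
        rcases mul_eq_zero.1 this with h | h
        · exact hpos.ne' h
        · exact htq' h
      · exact (hη z (mem_univ z) h1 h2).2
  · intro z h1 h2
    exact (hη z (mem_univ z) h1 h2).1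
  · rw [← htp, ← sub_pos, ep]
    constructor
    · intro h; exact (mul_pos_iff_of_pos_left hpos).1 h
    · intro h; exact mul_pos hpos h
  · rw [← htq, ← sub_pos, eq]
    constructor
    · intro h; exact (mul_pos_iff_of_pos_left hpos).1 h
    · intro h; exact mul_pos hpos h

variable {n : ℕ}

/-- sheared first coordinate -/
noncomputable def GeomGraph.X (Γ : GeomGraph n) (θ : ℝ) (i : Fin n) : ℝ := (Γ.pt i).1 + θ * (Γ.pt i).2

/-- second coordinate -/
noncomputable def GeomGraph.Y (Γ : GeomGraph n) (i : Fin n) : ℝ := (Γ.pt i).2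

/-- there is a shear for which the first coordinates are distinct -/
theorem GeomGraph.exists_shear (Γ : GeomGraph n) : ∃ θ : ℝ, Function.Injective (Γ.X θ) := by
  classical
  let bad : Set ℝ := ⋃ (i : Fin n), ⋃ (j : Fin n), {θ | i ≠ j ∧ Γ.X θ i = Γ.X θ j}
  have hfin : bad.Finite := by
    refine Set.finite_iUnion (fun i => Set.finite_iUnion (fun j => ?_))
    by_cases hij : i = j
    · convert Set.finite_empty (α := ℝ)
      ext θ; simp [hij]
    · apply Set.Subsingleton.finite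
      intro a ha b hb
      simp only [Set.mem_setOf_eq, GeomGraph.X] at ha hb
      by_contra hab
      have h1 : (a - b) * ((Γ.pt i).2 - (Γ.pt j).2) = 0 := by linarith [ha.2, hb.2]
      rcases mul_eq_zero.1 h1 with h | h
      · exact hab (by linarith)
      · have h2 : (Γ.pt i).2 = (Γ.pt j).2 := by linarith
        have h3 : (Γ.pt i).1 = (Γ.pt j).1 := by
          have := ha.2; rw [h2] at this; linarith
        exact hij (Γ.inj (Prod.ext h3 h2))
  obtain ⟨θ, hθ⟩ := hfin.infinite_compl.nonempty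
  refine ⟨θ, fun i j h => ?_⟩
  by_contra hne
  exact hθ (Set.mem_iUnion.2 ⟨i, Set.mem_iUnion.2 ⟨j, hne, h⟩⟩)

theorem GeomGraph.no_triple (Γ : GeomGraph n) (θ s : ℝ) (i j k : Fin n) (hij : i ≠ j) (hik : i ≠ k)
    (hjk : j ≠ k) (h1 : Γ.Y i - s * Γ.X θ i = Γ.Y j - s * Γ.X θ j)
    (h2 : Γ.Y j - s * Γ.X θ j = Γ.Y k - s * Γ.X θ k) : False := by
  apply Γ.gen i j k hij hik hjk
  apply collinear_of_det _ _ _ (fun h => hij (Γ.inj h))
  unfold GeomGraph.Y GeomGraph.X at h1 h2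
  have e1 : (1 - s * θ) * ((Γ.pt j).2 - (Γ.pt i).2) = s * ((Γ.pt j).1 - (Γ.pt i).1) := by linarith
  have e2 : (1 - s * θ) * ((Γ.pt k).2 - (Γ.pt i).2) = s * ((Γ.pt k).1 - (Γ.pt i).1) := by linarith
  by_cases hs : s = 0
  · subst hs
    simp only [zero_mul, sub_zero, one_mul] at e1 e2
    rw [e1, e2]; ring
  · have : s * (((Γ.pt j).1 - (Γ.pt i).1) * ((Γ.pt k).2 - (Γ.pt i).2)
        - ((Γ.pt k).1 - (Γ.pt i).1) * ((Γ.pt j).2 - (Γ.pt i).2)) = 0 := by
      linear_combination (-((Γ.pt k).2 - (Γ.pt i).2)) * e1 + ((Γ.pt j).2 - (Γ.pt i).2) * e2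
    rcases mul_eq_zero.1 this with h | h
    · exact absurd h hs
    · linarith

/-- an edge with endpoints strictly on the two sides of the line is met -/
theorem GeomGraph.mem_met (Γ : GeomGraph n) (a b c : ℝ) (e : Fin n × Fin n) (he : e ∈ Γ.edges)
    (h : (a * (Γ.pt e.1).1 + b * (Γ.pt e.1).2 < c ∧ c < a * (Γ.pt e.2).1 + b * (Γ.pt e.2).2) ∨
      (a * (Γ.pt e.2).1 + b * (Γ.pt e.2).2 < c ∧ c < a * (Γ.pt e.1).1 + b * (Γ.pt e.1).2)) :
    e ∈ Γ.met {z | a * z.1 + b * z.2 = c} := by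
  classical
  unfold GeomGraph.met
  rw [mem_filter]
  refine ⟨he, ?_⟩
  set F1 := a * (Γ.pt e.1).1 + b * (Γ.pt e.1).2 with hF1
  set F2 := a * (Γ.pt e.2).1 + b * (Γ.pt e.2).2 with hF2
  have hd : F2 - F1 ≠ 0 := by
    rcases h with h | h
    · have := h.1.trans h.2; linarith
    · have := h.1.trans h.2; linarith
  have hpos : 0 < (F2 - c) / (F2 - F1) ∧ 0 < (c - F1) / (F2 - F1) := by
    rcases h with h | h
    · exact ⟨div_pos (by linarith) (by linarith), div_pos (by linarith) (by linarith)⟩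
    · exact ⟨div_pos_of_neg_of_neg (by linarith) (by linarith),
        div_pos_of_neg_of_neg (by linarith) (by linarith)⟩
  refine ⟨((F2 - c) / (F2 - F1)) • Γ.pt e.1 + ((c - F1) / (F2 - F1)) • Γ.pt e.2, ?_, ?_⟩
  · refine ⟨_, _, hpos.1, hpos.2, ?_, rfl⟩
    field_simp
    ring
  · simp only [Set.mem_setOf_eq, Prod.fst_add, Prod.smul_fst, smul_eq_mul, Prod.snd_add, Prod.smul_snd]
    have e1 : a * ((F2 - c) / (F2 - F1) * (Γ.pt e.1).1 + (c - F1) / (F2 - F1) * (Γ.pt e.2).1) +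
      b * ((F2 - c) / (F2 - F1) * (Γ.pt e.1).2 + (c - F1) / (F2 - F1) * (Γ.pt e.2).2)
      = (F2 - c) / (F2 - F1) * F1 + (c - F1) / (F2 - F1) * F2 := by rw [hF1, hF2]; ring
    rw [e1]
    field_simp
    ring

theorem GeomGraph.edges_lt (Γ : GeomGraph n) : ∀ e ∈ Γ.edges, e.1 < e.2 := by
  classical
  intro e he
  unfold GeomGraph.edges at he
  exact (mem_filter.1 he).2.1

/-- the set of points strictly above the line `Y = s X + c` -/
noncomputable def GeomGraph.above (Γ : GeomGraph n) (θ s c : ℝ) : Finset (Fin n) :=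
  univ.filter (fun i => c < Γ.Y i - s * Γ.X θ i)

/-- the number of edges with exactly one endpoint above a line which misses all points is at most
the number of edges met by the line. -/
theorem GeomGraph.cut_le_met (Γ : GeomGraph n) (t : ℕ)
    (ht : ∀ L, IsLine L → (Γ.met L).card ≤ t) (θ s c : ℝ) (hc : ∀ i, Γ.Y i - s * Γ.X θ i ≠ c) :
    (Γ.edges.filter (fun e => ¬ (e.1 ∈ Γ.above θ s c ↔ e.2 ∈ Γ.above θ s c))).card ≤ t := by
  classical
  have hL : IsLine {z : ℝ × ℝ | (-s) * z.1 + (1 - s * θ) * z.2 = c} := by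
    refine ⟨-s, 1 - s * θ, c, ?_, rfl⟩
    by_cases h : s = 0
    · right; rw [h]; simp
    · left; simpa using h
  refine le_trans (card_le_card ?_) (ht _ hL)
  intro e he
  rw [mem_filter] at he
  apply GeomGraph.mem_met Γ _ _ _ e he.1
  have key : ∀ i, (-s) * (Γ.pt i).1 + (1 - s * θ) * (Γ.pt i).2 = Γ.Y i - s * Γ.X θ i := by
    intro i; unfold GeomGraph.X GeomGraph.Y; ring
  rw [key, key]
  have h := he.2
  simp only [GeomGraph.above, mem_filter, mem_univ, true_and] at h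
  rcases lt_or_gt_of_ne (hc e.1) with h1 | h1 <;> rcases lt_or_gt_of_ne (hc e.2) with h2 | h2
  · exact absurd ⟨fun h => absurd h1 (lt_asymm h), fun h => absurd h2 (lt_asymm h)⟩ h
  · left; exact ⟨h1, h2⟩
  · right; exact ⟨h2, h1⟩
  · exact absurd ⟨fun _ => h2, fun _ => h1⟩ h

/-- edges between two sets separated by a line `X = const` -/
theorem GeomGraph.cross_le (Γ : GeomGraph n) (t : ℕ)
    (ht : ∀ L, IsLine L → (Γ.met L).card ≤ t) (θ : ℝ) (P1 P2 : Finset (Fin n))
    (hsep : ∀ p ∈ P1, ∀ q ∈ P2, Γ.X θ p < Γ.X θ q) : (cross Γ.edges P1 P2).card ≤ t := by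
  classical
  rcases P1.eq_empty_or_nonempty with rfl | h1
  · simp [cross]
  rcases P2.eq_empty_or_nonempty with rfl | h2
  · simp [cross]
  obtain ⟨p0, hp0, hmax⟩ := P1.exists_max_image (Γ.X θ) h1
  obtain ⟨q0, hq0, hmin⟩ := P2.exists_min_image (Γ.X θ) h2
  have h0 := hsep p0 hp0 q0 hq0
  set c := (Γ.X θ p0 + Γ.X θ q0) / 2 with hc
  have hL : IsLine {z : ℝ × ℝ | 1 * z.1 + θ * z.2 = c} := ⟨1, θ, c, Or.inl one_ne_zero, rfl⟩
  refine le_trans (card_le_card ?_) (ht _ hL)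
  intro e he
  simp only [cross, mem_filter] at he
  apply GeomGraph.mem_met Γ _ _ _ e he.1
  have key : ∀ i, 1 * (Γ.pt i).1 + θ * (Γ.pt i).2 = Γ.X θ i := by
    intro i; unfold GeomGraph.X; ring
  rw [key, key]
  have a1 : ∀ p ∈ P1, Γ.X θ p < c := fun p hp => by have := hmax p hp; rw [hc]; linarith
  have a2 : ∀ q ∈ P2, c < Γ.X θ q := fun q hq => by have := hmin q hq; rw [hc]; linarith
  rcases he.2 with ⟨h1, h2⟩ | ⟨h1, h2⟩
  · left; exact ⟨a1 _ h1, a2 _ h2⟩
  · right; exact ⟨a1 _ h2, a2 _ h1⟩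

/-- **Realisation.** a pair `p ∈ P1`, `q ∈ P2` on a line of slope `s`: all four ways of putting `p`
and `q` above or below are realised by lines missing all the points. -/
theorem GeomGraph.realise (Γ : GeomGraph n) (θ s : ℝ) (P1 P2 : Finset (Fin n)) (p q : Fin n)
    (hp : p ∈ P1) (hq : q ∈ P2) (hsep : ∀ p ∈ P1, ∀ q ∈ P2, Γ.X θ p < Γ.X θ q)
    (htie : Γ.Y p - s * Γ.X θ p = Γ.Y q - s * Γ.X θ q) (σp σq : Prop) [Decidable σp] [Decidable σq] :
    ∃ s' c' : ℝ, (∀ i, Γ.Y i - s' * Γ.X θ i ≠ c') ∧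
      P1 ∩ Γ.above θ s' c' = (if σp then insert p (sab (Γ.X θ) Γ.Y s P1 q) else sab (Γ.X θ) Γ.Y s P1 q) ∧
      P2 ∩ Γ.above θ s' c' = (if σq then insert q (sab (Γ.X θ) Γ.Y s P2 q) else sab (Γ.X θ) Γ.Y s P2 q) ∧
      (∀ z, z ≠ p → z ≠ q → (z ∈ Γ.above θ s' c' ↔ Γ.Y q - s * Γ.X θ q < Γ.Y z - s * Γ.X θ z)) := by
  classical
  have hx := hsep p hp q hq
  have hpq : p ≠ q := fun h => by subst h; exact lt_irrefl _ hx
  obtain ⟨s', c', h1, h2, h3, h4⟩ := perturb (Γ.X θ) Γ.Y s p q hx htie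
    (fun z hzp hzq h => Γ.no_triple θ s z p q hzp hzq hpq (h.trans htie.symm) htie) σp σq
  have hqP1 : q ∉ P1 := fun h => lt_irrefl _ (hsep q h q hq)
  have hpP2 : p ∉ P2 := fun h => lt_irrefl _ (hsep p hp p h)
  refine ⟨s', c', h1, ?_, ?_, ?_⟩
  · ext z
    by_cases hzp : z = p
    · subst hzp
      by_cases hσ : σp
      · simp [hσ, GeomGraph.above, h3.2 hσ, hp]
      · have : ¬ c' < Γ.Y z - s' * Γ.X θ z := fun h => hσ (h3.1 h)
        simp [hσ, GeomGraph.above, this, sab, htie]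
    · have hz : z ∈ P1 → (c' < Γ.Y z - s' * Γ.X θ z ↔ Γ.Y q - s * Γ.X θ q < Γ.Y z - s * Γ.X θ z) :=
        fun hz1 => h2 z hzp (fun h => hqP1 (h ▸ hz1))
      have hmem : z ∈ (if σp then insert p (sab (Γ.X θ) Γ.Y s P1 q) else sab (Γ.X θ) Γ.Y s P1 q)
          ↔ z ∈ sab (Γ.X θ) Γ.Y s P1 q := by
        split_ifs <;> simp [hzp]
      rw [hmem]
      simp only [GeomGraph.above, sab, mem_inter, mem_filter, mem_univ, true_and]
      exact ⟨fun ⟨a, b⟩ => ⟨a, (hz a).1 b⟩, fun ⟨a, b⟩ => ⟨a, (hz a).2 b⟩⟩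
  · ext z
    by_cases hzq : z = q
    · subst hzq
      by_cases hσ : σq
      · simp [hσ, GeomGraph.above, h4.2 hσ, hq]
      · have : ¬ c' < Γ.Y z - s' * Γ.X θ z := fun h => hσ (h4.1 h)
        simp [hσ, GeomGraph.above, this, sab]
    · have hz : z ∈ P2 → (c' < Γ.Y z - s' * Γ.X θ z ↔ Γ.Y q - s * Γ.X θ q < Γ.Y z - s * Γ.X θ z) :=
        fun hz1 => h2 z (fun h => hpP2 (h ▸ hz1)) hzq
      have hmem : z ∈ (if σq then insert q (sab (Γ.X θ) Γ.Y s P2 q) else sab (Γ.X θ) Γ.Y s P2 q)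
          ↔ z ∈ sab (Γ.X θ) Γ.Y s P2 q := by
        split_ifs <;> simp [hzq]
      rw [hmem]
      simp only [GeomGraph.above, sab, mem_inter, mem_filter, mem_univ, true_and]
      exact ⟨fun ⟨a, b⟩ => ⟨a, (hz a).1 b⟩, fun ⟨a, b⟩ => ⟨a, (hz a).2 b⟩⟩
  · intro z hzp hzq
    simp only [GeomGraph.above, mem_filter, mem_univ, true_and]
    exact h2 z hzp hzq

end Pool.Agent.T2H82.GeoLine
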