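import Mathlib
import Pool.Agent.T2H82.GeoLine.Geom

/-!
Upper bounds for the number of edges when every line meets at most `t` edges.
-/

namespace Pool.Agent.T2H82.GeoLine

open Finset

variable {n : ℕ}

theorem wall_load (c : Finset (Fin n) → ℕ) (a : ℕ) (P S : Finset (Fin n)) (p : Fin n)
    (hp : p ∈ P) (hpS : p ∉ S)
    (hne : ¬ (Reach c a P (insert p S) ↔ Reach c a P S)) :
    (a ≤ c (insert p S) ∧ ¬ Reach c a P (insert p S)) ∨ (a ≤ c S ∧ ¬ Reach c a P S) := by
  by_cases h1 : Reach c a P (insert p S)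
  · have h2 : ¬ Reach c a P S := fun h => hne ⟨fun _ => h, fun _ => h1⟩
    right
    refine ⟨?_, h2⟩
    by_contra hlt
    push Not at hlt
    apply h2
    have := Reach.del (insert p S) p h1 (by rwa [erase_insert hpS])
    rwa [erase_insert hpS] at this
  · left
    have h2 : Reach c a P S := by
      by_contra h; exact hne ⟨fun h' => absurd h' h1, fun h' => absurd h' h⟩
    refine ⟨?_, h1⟩
    by_contra hlt
    push Not at hlt
    exact h1 (Reach.ins S p h2 hp hlt)

/-- general form: from a wall on both sides we get a line. -/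
theorem hex_line (Γ : GeomGraph n) (θ : ℝ) (P1 P2 : Finset (Fin n))
    (hsep : ∀ p ∈ P1, ∀ q ∈ P2, Γ.X θ p < Γ.X θ q) (hX : Function.Injective (Γ.X θ))
    (U1 U2 : Finset (Fin n) → Prop) (h1 : U1 ∅) (h1' : ¬ U1 P1) (h2 : U2 ∅) (h2' : ¬ U2 P2) :
    ∃ s : ℝ, ∃ p ∈ P1, ∃ q ∈ P2, Γ.Y p - s * Γ.X θ p = Γ.Y q - s * Γ.X θ q ∧
      p ∉ sab (Γ.X θ) Γ.Y s P1 q ∧ q ∉ sab (Γ.X θ) Γ.Y s P2 q ∧
      ¬ (U1 (insert p (sab (Γ.X θ) Γ.Y s P1 q)) ↔ U1 (sab (Γ.X θ) Γ.Y s P1 q)) ∧
      ¬ (U2 (insert q (sab (Γ.X θ) Γ.Y s P2 q)) ↔ U2 (sab (Γ.X θ) Γ.Y s P2 q)) := by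
  classical
  obtain ⟨s, p, hp, q, hq, htie, k1, k2⟩ := hex (Γ.X θ) Γ.Y (fun A => if U1 A then 1 else 0)
    (fun A => if U2 A then 1 else 0) P1 P2 hsep
    (fun i _ j _ hij _ => hX hij)
    (fun s i _ j _ k _ hij hik hjk e1 e2 => Γ.no_triple θ s i j k hij hik hjk e1 e2)
    (by simp [h1, h1']) (by simp [h2, h2'])
  refine ⟨s, p, hp, q, hq, htie, ?_, ?_, ?_, ?_⟩
  · simp [sab, htie]
  · simp [sab]
  · intro h
    apply k1
    by_cases h' : U1 (sab (Γ.X θ) Γ.Y s P1 q)
    · simp [h', h.2 h']
    · have : ¬ U1 (insert p (sab (Γ.X θ) Γ.Y s P1 q)) := fun h'' => h' (h.1 h'')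
      simp [h', this]
  · intro h
    apply k2
    by_cases h' : U2 (sab (Γ.X θ) Γ.Y s P2 q)
    · simp [h', h.2 h']
    · have : ¬ U2 (insert q (sab (Γ.X θ) Γ.Y s P2 q)) := fun h'' => h' (h.1 h'')
      simp [h', this]

/-- **Theorem H.** If neither `P1` nor `P2` can be swept below its load then some line meets
`a1 + a2` edges. -/
theorem thmH (Γ : GeomGraph n) (t : ℕ) (ht : ∀ L, IsLine L → (Γ.met L).card ≤ t) (θ : ℝ)
    (hX : Function.Injective (Γ.X θ)) (P1 P2 : Finset (Fin n))
    (hsep : ∀ p ∈ P1, ∀ q ∈ P2, Γ.X θ p < Γ.X θ q) (a1 a2 : ℕ)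
    (h1 : ¬ Reach (cut Γ.edges P1) a1 P1 P1) (h2 : ¬ Reach (cut Γ.edges P2) a2 P2 P2) :
    a1 + a2 ≤ t := by
  classical
  obtain ⟨s, p, hp, q, hq, htie, hpS, hqS, w1, w2⟩ := hex_line Γ θ P1 P2 hsep hX
    (Reach (cut Γ.edges P1) a1 P1) (Reach (cut Γ.edges P2) a2 P2) Reach.base h1 Reach.base h2
  have l1 := wall_load _ _ _ _ p hp hpS w1
  have l2 := wall_load _ _ _ _ q hq hqS w2
  -- choose the sides
  obtain ⟨σp, hσp⟩ : ∃ σp : Prop, a1 ≤ cut Γ.edges P1 (if σp then insert p (sab (Γ.X θ) Γ.Y s P1 q)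
      else sab (Γ.X θ) Γ.Y s P1 q) := by
    rcases l1 with h | h
    · exact ⟨True, by simpa using h.1⟩
    · exact ⟨False, by simpa using h.1⟩
  obtain ⟨σq, hσq⟩ : ∃ σq : Prop, a2 ≤ cut Γ.edges P2 (if σq then insert q (sab (Γ.X θ) Γ.Y s P2 q)
      else sab (Γ.X θ) Γ.Y s P2 q) := by
    rcases l2 with h | h
    · exact ⟨True, by simpa using h.1⟩
    · exact ⟨False, by simpa using h.1⟩
  obtain ⟨s', c', hmiss, e1, e2, _⟩ := Γ.realise θ s P1 P2 p q hp hq hsep htie σp σq
  rw [← e1] at hσp
  rw [← e2] at hσq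
  have hfin := Γ.cut_le_met t ht θ s' c' hmiss
  set A := Γ.above θ s' c' with hA
  refine le_trans (Nat.add_le_add hσp hσq) (le_trans ?_ hfin)
  unfold cut
  rw [← card_union_of_disjoint]
  · apply card_le_card
    intro e he
    simp only [cutS, mem_union, mem_filter, mem_inter] at he ⊢
    rcases he with ⟨h1, ⟨h2, h3⟩, h4⟩ | ⟨h1, ⟨h2, h3⟩, h4⟩
    · refine ⟨h1, fun h => h4 ?_⟩
      simp [h2, h3, h]
    · refine ⟨h1, fun h => h4 ?_⟩
      simp [h2, h3, h]
  · rw [disjoint_left]
    intro e he he'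
    simp only [cutS, mem_filter] at he he'
    exact lt_irrefl _ (hsep e.1 he.2.1.1 e.1 he'.2.1.1)

/-- splitting the edges of the whole graph -/
theorem inn_three (E : Finset (Fin n × Fin n)) (P1 P2 : Finset (Fin n)) (v : Fin n)
    (hd : ∀ p ∈ P1, p ≠ v) (hd2 : ∀ p ∈ P2, p ≠ v) (hE : ∀ e ∈ E, e.1 ≠ e.2)
    (hU : ∀ z, z ∈ P1 ∨ z = v ∨ z ∈ P2) :
    E.card ≤ (inn E P1).card + (inn E P2).card + (cross E P1 (insert v P2)).card
      + (cross E (insert v P1) P2).card := by
  classical
  have hsub : E ⊆ ((inn E P1 ∪ inn E P2) ∪ cross E P1 (insert v P2)) ∪ cross E (insert v P1) P2 := by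
    intro e he
    simp only [inn, cross, mem_union, mem_filter, mem_insert]
    have hne := hE e he
    rcases hU e.1 with h1 | h1 | h1 <;> rcases hU e.2 with h2 | h2 | h2
    · tauto
    · tauto
    · tauto
    · tauto
    · exact absurd (h1.trans h2.symm) hne
    · tauto
    · tauto
    · tauto
    · tauto
  calc E.card ≤ _ := card_le_card hsub
    _ ≤ _ := card_union_le _ _
    _ ≤ _ := Nat.add_le_add_right (card_union_le _ _) _
    _ ≤ _ := Nat.add_le_add_right (Nat.add_le_add_right (card_union_le _ _) _) _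

/-- general upper bound -/
theorem upper_general (Γ : GeomGraph n) (t d r w : ℕ) (ht : ∀ L, IsLine L → (Γ.met L).card ≤ t)
    (hw : 2 * w = d * (d + 1) + 2 * r) (htw : t ≤ 2 * w + 1) (hn : 1 ≤ n) :
    (d + 1) * Γ.edges.card ≤ (d * (d + 1) + r) * (n - 1) + (d + 1) * (2 * t) := by
  classical
  obtain ⟨θ, hX⟩ := Γ.exists_shear
  have hE := Γ.edges_lt
  set E := Γ.edges with hEdef
  let Vle : Fin n → Finset (Fin n) := fun i => univ.filter (fun j => Γ.X θ j ≤ Γ.X θ i)
  by_cases hall : ∀ i, Reach (cut E (Vle i)) (w + 1) (Vle i) (Vle i)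
  · -- the whole graph can be swept; use the last point only
    have : Nonempty (Fin n) := ⟨⟨0, hn⟩⟩
    obtain ⟨v, _, hv⟩ := (univ : Finset (Fin n)).exists_max_image (Γ.X θ) univ_nonempty
    let P1 : Finset (Fin n) := univ.erase v
    have hP1 : (inn E P1).card * (d + 1) ≤ (d * (d + 1) + r) * (n - 1) := by
      have hR : Reach (cut E P1) (w + 1) P1 P1 := by
        have h1 := hall v
        have hV : Vle v = univ := by
          ext z; simp [Vle, hv z (mem_univ z)]
        rw [hV] at h1
        have h2 : Reach (cut E (univ \ {v})) (w + 1) (univ \ {v}) (univ \ {v}) :=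
          h1.restrict (fun A => cut_restrict E univ {v} A)
        have e : (univ \ {v} : Finset (Fin n)) = P1 := by
          ext z; simp [P1]
        rwa [e] at h2
      have := lin_bound E hE d r w hw P1 hR
      have hc : P1.card = n - 1 := by simp [P1]
      rw [hc] at this
      linarith
    have h3 := inn_three E P1 ∅ v (fun p hp => (mem_erase.1 hp).1) (by simp)
      (fun e he => ne_of_lt (hE e he)) (fun z => by
        by_cases h : z = v
        · exact Or.inr (Or.inl h)
        · exact Or.inl (mem_erase.2 ⟨h, mem_univ _⟩))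
    have h4 : (cross E P1 (insert v ∅)).card ≤ t := by
      apply Γ.cross_le t ht θ
      intro p hp q hq
      simp only [insert_empty_eq, mem_singleton] at hq
      subst hq
      exact lt_of_le_of_ne (hv p (mem_univ p)) (fun h => (mem_erase.1 hp).1 (hX h))
    have h5 : (inn E ∅).card = 0 := by simp [inn]
    have h6 : (cross E (insert v P1) ∅).card = 0 := by simp [cross]
    have h7 : E.card ≤ (inn E P1).card + t := by omega
    have h8 : (d + 1) * E.card ≤ (d + 1) * ((inn E P1).card + t) := Nat.mul_le_mul_left _ h7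
    nlinarith
  · push Not at hall
    obtain ⟨v0, hv0⟩ := hall
    -- minimal bad index
    have hne : (univ.filter (fun i => ¬ Reach (cut E (Vle i)) (w + 1) (Vle i) (Vle i))).Nonempty :=
      ⟨v0, by simpa using hv0⟩
    obtain ⟨v, hvmem, hvmin⟩ := exists_min_image _ (Γ.X θ) hne
    have hv : ¬ Reach (cut E (Vle v)) (w + 1) (Vle v) (Vle v) := by simpa using hvmem
    let P1 : Finset (Fin n) := univ.filter (fun j => Γ.X θ j < Γ.X θ v)
    let P2 : Finset (Fin n) := univ.filter (fun j => Γ.X θ v < Γ.X θ j)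
    have hR1 : Reach (cut E P1) (w + 1) P1 P1 := by
      rcases P1.eq_empty_or_nonempty with h | h
      · rw [h]; exact Reach.base
      · obtain ⟨u, hu, humax⟩ := P1.exists_max_image (Γ.X θ) h
        have huv : Γ.X θ u < Γ.X θ v := by simpa [P1] using hu
        have e : P1 = Vle u := by
          ext z
          simp only [P1, Vle, mem_filter, mem_univ, true_and]
          constructor
          · intro hz; exact humax z (by simpa [P1] using hz)
          · intro hz; exact lt_of_le_of_lt hz huv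
        rw [e]
        by_contra hbad
        have := hvmin u (by simpa using hbad)
        linarith
    have hR2 : Reach (cut E P2) (w + 1) P2 P2 := by
      rcases P2.eq_empty_or_nonempty with h | h
      · rw [h]; exact Reach.base
      · by_contra hbad
        have := thmH Γ t ht θ hX (Vle v) P2 (by
          intro p hp q hq
          simp only [Vle, P2, mem_filter, mem_univ, true_and] at hp hq
          exact lt_of_le_of_lt hp hq) (w + 1) (w + 1) hv hbad
        omega
    have b1 := lin_bound E hE d r w hw P1 hR1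
    have b2 := lin_bound E hE d r w hw P2 hR2
    have hcard : P1.card + P2.card = n - 1 := by
      have h1 : Disjoint P1 P2 := by
        rw [disjoint_left]; intro z hz hz'
        simp only [P1, P2, mem_filter, mem_univ, true_and] at hz hz'
        exact lt_asymm hz hz'
      rw [← card_union_of_disjoint h1]
      have h2 : P1 ∪ P2 = univ.erase v := by
        ext z
        simp only [P1, P2, mem_union, mem_filter, mem_univ, true_and, mem_erase, and_true]
        constructor
        · rintro (h | h) rfl <;> exact lt_irrefl _ h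
        · intro h
          exact lt_or_gt_of_ne (fun h' => h (hX h'))
      rw [h2]; simp
    have h3 := inn_three E P1 P2 v
      (fun p hp h => by subst h; simp [P1] at hp)
      (fun p hp h => by subst h; simp [P2] at hp)
      (fun e he => ne_of_lt (hE e he)) (fun z => by
        rcases lt_trichotomy (Γ.X θ z) (Γ.X θ v) with h | h | h
        · exact Or.inl (by simpa [P1] using h)
        · exact Or.inr (Or.inl (hX h))
        · exact Or.inr (Or.inr (by simpa [P2] using h)))
    have h4 : (cross E P1 (insert v P2)).card ≤ t := by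
      apply Γ.cross_le t ht θ
      intro p hp q hq
      simp only [P1, P2, mem_filter, mem_univ, true_and, mem_insert] at hp hq
      rcases hq with rfl | hq
      · exact hp
      · exact hp.trans hq
    have h5 : (cross E (insert v P1) P2).card ≤ t := by
      apply Γ.cross_le t ht θ
      intro p hp q hq
      simp only [P1, P2, mem_filter, mem_univ, true_and, mem_insert] at hp hq
      rcases hp with rfl | hp
      · exact hq
      · exact hp.trans hq
    have h7 : E.card ≤ (inn E P1).card + (inn E P2).card + 2 * t := by omega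
    calc (d + 1) * E.card ≤ (d + 1) * ((inn E P1).card + (inn E P2).card + 2 * t) :=
          Nat.mul_le_mul_left _ h7
      _ = (d + 1) * (inn E P1).card + (d + 1) * (inn E P2).card + (d + 1) * (2 * t) := by ring
      _ ≤ (d * (d + 1) + r) * P1.card + (d * (d + 1) + r) * P2.card + (d + 1) * (2 * t) := by
          linarith
      _ = (d * (d + 1) + r) * (P1.card + P2.card) + (d + 1) * (2 * t) := by ring
      _ = (d * (d + 1) + r) * (n - 1) + (d + 1) * (2 * t) := by rw [hcard]

/-- a prefix of given size in the order of `X` -/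
theorem exists_prefix (Γ : GeomGraph n) (θ : ℝ) (hX : Function.Injective (Γ.X θ)) (m : ℕ) (hm : m ≤ n) :
    ∃ P : Finset (Fin n), P.card = m ∧ ∀ p ∈ P, ∀ q ∉ P, Γ.X θ p < Γ.X θ q := by
  classical
  induction m with
  | zero => exact ⟨∅, by simp, by simp⟩
  | succ m ih =>
    obtain ⟨P, hP, hsep⟩ := ih (by omega)
    have hne : Pᶜ.Nonempty := by
      rw [← card_pos, card_compl, Fintype.card_fin]; omega
    obtain ⟨v, hv, hmin⟩ := Pᶜ.exists_min_image (Γ.X θ) hne
    rw [mem_compl] at hv
    refine ⟨insert v P, by rw [card_insert_of_notMem hv, hP], ?_⟩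
    intro p hp q hq
    rw [mem_insert, not_or] at hq
    rcases mem_insert.1 hp with rfl | hp
    · exact lt_of_le_of_ne (hmin q (mem_compl.2 hq.2)) (fun h => hq.1 (hX h.symm))
    · exact hsep p hp q hq.2

/-- Turán-type upper bound: `2 (q+1)` nearly equal cliques plus `(q+1) t`. -/
theorem upper_block (Γ : GeomGraph n) (t : ℕ) (ht : ∀ L, IsLine L → (Γ.met L).card ≤ t)
    (q s j : ℕ) (hj : j ≤ 2 * (q + 1)) (hn : n = 2 * (q + 1) * s + j) (hn1 : 2 ≤ n) :
    Γ.edges.card ≤ j * (s + 1).choose 2 + (2 * (q + 1) - j) * s.choose 2 + (q + 1) * t := by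
  classical
  obtain ⟨θ, hX⟩ := Γ.exists_shear
  have hE := Γ.edges_lt
  set E := Γ.edges with hEdef
  set j1 := j / 2 with hj1
  set j2 := j - j / 2 with hj2
  obtain ⟨P, hP, hsep⟩ := exists_prefix Γ θ hX ((q + 1) * s + j1) (by rw [hn]; nlinarith [Nat.div_le_self j 2])
  have hPc : (univ \ P).card = (q + 1) * s + j2 := by
    rw [card_sdiff_of_subset (subset_univ _), card_univ, Fintype.card_fin, hP, hn]
    have : 2 * (q + 1) * s = (q + 1) * s + (q + 1) * s := by ring
    omega
  have hj1' : j1 ≤ q + 1 := by omega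
  have hj2' : j2 ≤ q + 1 := by omega
  have hsep' : ∀ p ∈ P, ∀ z ∈ univ \ P, Γ.X θ p < Γ.X θ z := fun p hp z hz =>
    hsep p hp z (mem_sdiff.1 hz).2
  have hcross : (cross E P (univ \ P)).card ≤ t := Γ.cross_le t ht θ P _ hsep'
  -- sweep numbers
  have hex1 : ∃ a, Reach (cut E P) (a + 1) P P := ⟨E.card, Reach.all (fun A => by
    have : cut E P A ≤ E.card := card_le_card (filter_subset _ _)
    omega) P (Subset.refl _)⟩
  have hex2 : ∃ a, Reach (cut E (univ \ P)) (a + 1) (univ \ P) (univ \ P) := ⟨E.card, Reach.all (fun A => by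
    have : cut E (univ \ P) A ≤ E.card := card_le_card (filter_subset _ _)
    omega) _ (Subset.refl _)⟩
  have hr1 := Nat.find_spec hex1
  have hr2 := Nat.find_spec hex2
  have hm1 := fun m (hm : m < Nat.find hex1) => Nat.find_min hex1 hm
  have hm2 := fun m (hm : m < Nat.find hex2) => Nat.find_min hex2 hm
  set a1 := Nat.find hex1 with ha1
  set a2 := Nat.find hex2 with ha2
  have hnot : ∀ (V : Finset (Fin n)) (a : ℕ), V.Nonempty →
      (∀ m < a, ¬ Reach (cut E V) (m + 1) V V) → ¬ Reach (cut E V) a V V := by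
    intro V a hV hmin hR
    rcases Nat.eq_zero_or_pos a with rfl | hpos
    · rcases hR.load with h | h
      · rw [h] at hV; exact Finset.not_nonempty_empty hV
      · omega
    · obtain ⟨b, rfl⟩ : ∃ b, a = b + 1 := ⟨a - 1, by omega⟩
      exact hmin b (by omega) hR
  have hsum : a1 + a2 ≤ t := by
    have hne1 : P.Nonempty := by
      rw [← card_pos, hP]
      by_contra h
      have : (q + 1) * s + j1 = 0 := by omega
      have h2 : (q + 1) * s = 0 := by omega
      have h3 : j / 2 = 0 := by omega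
      have h4 : n = 2 * ((q + 1) * s) + j := by rw [hn]; ring
      omega
    have hne2 : (univ \ P).Nonempty := by
      rw [← card_pos, hPc]
      by_contra h
      have : (q + 1) * s + j2 = 0 := by omega
      have h2 : (q + 1) * s = 0 := by omega
      have h4 : n = 2 * ((q + 1) * s) + j := by rw [hn]; ring
      omega
    exact thmH Γ t ht θ hX P (univ \ P) hsep' a1 a2 (hnot _ _ hne1 hm1) (hnot _ _ hne2 hm2)
  have b1 := block_bound E hE a1 s q j1 P hj1' hP hr1
  have b2 := block_bound E hE a2 s q j2 (univ \ P) hj2' hPc hr2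
  have hs := inn_split E univ P (subset_univ _)
  have hinn : (inn E univ).card = E.card := by
    unfold inn; congr 1
    apply filter_true_of_mem; intro e _; exact ⟨mem_univ _, mem_univ _⟩
  have hcut : cut E univ P ≤ t := by
    refine le_trans (card_le_card ?_) hcross
    intro e
    simp only [cutS, cross, mem_filter, mem_univ, true_and, mem_sdiff]
    tauto
  rw [hinn] at hs
  have e1 : j1 + j2 = j := by omega
  have e2 : (q + 1 - j1) + (q + 1 - j2) = 2 * (q + 1) - j := by omega
  calc E.card = (inn E P).card + cut E univ P + (inn E (univ \ P)).card := hs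
    _ ≤ (j1 * (s + 1).choose 2 + (q + 1 - j1) * s.choose 2 + q * a1) + t
        + (j2 * (s + 1).choose 2 + (q + 1 - j2) * s.choose 2 + q * a2) := by
          exact Nat.add_le_add (Nat.add_le_add b1 hcut) b2
    _ = (j1 + j2) * (s + 1).choose 2 + ((q + 1 - j1) + (q + 1 - j2)) * s.choose 2
        + q * (a1 + a2) + t := by ring
    _ ≤ j * (s + 1).choose 2 + (2 * (q + 1) - j) * s.choose 2 + q * t + t := by
          rw [e1, e2]
          have := Nat.mul_le_mul_left q hsum
          omega
    _ = _ := by ring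

end Pool.Agent.T2H82.GeoLine
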