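import Mathlib
import Pool.Agent.T2H82.GeoLine.Upper
import Pool.Agent.T2H82.GeoLine.Lower

/-!
Bounds for `f n k`.
-/

namespace Pool.Agent.T2H82.GeoLine

open Finset

theorem edges_card_le {n : ℕ} (Γ : GeomGraph n) : Γ.edges.card ≤ n.choose 2 := by
  have h1 := inn_le_choose Γ.edges Γ.edges_lt univ
  have h2 : inn Γ.edges univ = Γ.edges := by
    unfold inn
    apply filter_true_of_mem; intro e _; exact ⟨mem_univ _, mem_univ _⟩
  rw [h2] at h1
  simpa using h1

theorem forces_nonempty (n k : ℕ) : {e | Forces n k e}.Nonempty := by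
  refine ⟨n.choose 2 + 1, ?_⟩
  intro Γ hΓ
  have := edges_card_le Γ
  omega

/-- to bound `f` from above -/
theorem f_le (n t B : ℕ) (h : ∀ Γ : GeomGraph n, (∀ L, IsLine L → (Γ.met L).card ≤ t) →
    Γ.edges.card ≤ B) : f n (t + 1) ≤ B + 1 := by
  apply Nat.sInf_le
  intro Γ hΓ
  by_contra hcon
  push Not at hcon
  have := h Γ (fun L hL => by have := hcon L hL; omega)
  omega

/-- to bound `f` from below -/
theorem lt_f (n t : ℕ) (Γ : GeomGraph n) (h : ∀ L, IsLine L → (Γ.met L).card ≤ t) :
    Γ.edges.card + 1 ≤ f n (t + 1) := by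
  have h1 : Forces n (t + 1) (f n (t + 1)) := Nat.sInf_mem (forces_nonempty n (t + 1))
  by_contra hcon
  push Not at hcon
  obtain ⟨L, hL, hL'⟩ := h1 Γ (by omega)
  have := h L hL
  omega

theorem lower_general (n d r ε : ℕ) (hr : r ≤ d) (hε : ε ≤ 1) (hn : 2 * d + 3 ≤ n) :
    d * n + r * n / (d + 1) + ε + 1 ≤ f n (d * (d + 1) + 2 * r + ε + 1) := by
  have hn0 : 0 < n := by omega
  set N := r * n / (d + 1) with hN
  have hDN : (d + 1) * N ≤ r * n := Nat.mul_div_le _ _
  have hNn : N ≤ n := by
    by_contra h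
    push Not at h
    have h1 : (d + 1) * n < (d + 1) * N := Nat.mul_lt_mul_of_pos_left h (by omega)
    have h2 : r * n ≤ (d + 1) * n := Nat.mul_le_mul_right _ (by omega)
    omega
  obtain ⟨w, hw⟩ : ∃ w, 2 * w = d * (d + 1) + 2 * r := by
    have : Even (d * (d + 1)) := Nat.even_mul_succ_self d
    obtain ⟨m, hm⟩ := this
    exact ⟨m + r, by omega⟩
  have hmet := parab_met n N d r w hn0 (by omega) hDN hw
  have hcard := parab_card n N d hn0 (by omega) hNn
  have hε' : ε = 0 ∨ ε = 1 := by omega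
  rcases hε' with rfl | rfl
  · have := lt_f n (2 * w) (parab n N d hn0) hmet
    rw [hcard, hw] at this
    simpa using this
  · have hlt : (parab n N d hn0).edges.card < n.choose 2 := by
      rw [hcard, Nat.choose_two_right]
      have h1 : N < n := by
        by_contra h
        push Not at h
        have h1 : (d + 1) * n ≤ (d + 1) * N := Nat.mul_le_mul_left _ h
        have h2 : r * n < (d + 1) * n := Nat.mul_lt_mul_of_pos_right (by omega) hn0
        omega
      rw [Nat.lt_iff_add_one_le, Nat.le_div_iff_mul_le (by norm_num)]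
      have h3 : 2 * (d + 1) ≤ n - 1 := by omega
      have h4 : n * (2 * (d + 1)) ≤ n * (n - 1) := Nat.mul_le_mul_left _ h3
      have h5 : (d * n + N + 1) * 2 ≤ n * (2 * (d + 1)) := by nlinarith
      omega
    obtain ⟨Γ', h1, h2⟩ := add_edge (parab n N d hn0) (2 * w) hmet hlt
    have := lt_f n (2 * w + 1) Γ' h2
    rw [h1, hcard, hw] at this
    exact this

theorem upper_general_f (n d r ε : ℕ) (hε : ε ≤ 1) (hn : 1 ≤ n) :
    (d + 1) * f n (d * (d + 1) + 2 * r + ε + 1) ≤
      (d * (d + 1) + r) * (n - 1) + (d + 1) * (2 * (d * (d + 1) + 2 * r + ε) + 1) := by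
  obtain ⟨w, hw⟩ : ∃ w, 2 * w = d * (d + 1) + 2 * r := by
    have : Even (d * (d + 1)) := Nat.even_mul_succ_self d
    obtain ⟨m, hm⟩ := this
    exact ⟨m + r, by omega⟩
  set t := d * (d + 1) + 2 * r + ε with ht
  set C := (d * (d + 1) + r) * (n - 1) + (d + 1) * (2 * t) with hC
  have h1 : f n (t + 1) ≤ C / (d + 1) + 1 := by
    apply f_le
    intro Γ hΓ
    rw [Nat.le_div_iff_mul_le (by omega), mul_comm]
    exact upper_general Γ t d r w hΓ hw (by omega) hn
  have h2 : (d + 1) * (C / (d + 1)) ≤ C := Nat.mul_div_le _ _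
  calc (d + 1) * f n (t + 1) ≤ (d + 1) * (C / (d + 1) + 1) := Nat.mul_le_mul_left _ h1
    _ = (d + 1) * (C / (d + 1)) + (d + 1) := by ring
    _ ≤ C + (d + 1) := by omega
    _ = _ := by rw [hC]; ring

theorem exact_div (n d r : ℕ) (hr : r ≤ d) (hn : 2 * d + 3 ≤ n) (h : 2 * (d + 1) ∣ n) :
    f n (d * (d + 1) + 2 * r + 1) = d * n + r * n / (d + 1) + 1 := by
  apply le_antisymm
  · apply f_le
    intro Γ hΓ
    obtain ⟨q, hq⟩ := h
    have hq0 : 0 < q := by
      rcases Nat.eq_zero_or_pos q with h | h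
      · rw [h] at hq; omega
      · exact h
    obtain ⟨q, rfl⟩ : ∃ q', q = q' + 1 := ⟨q - 1, by omega⟩
    have := upper_block Γ _ hΓ q (d + 1) 0 (by omega) (by rw [hq]; ring) (by omega)
    refine le_trans this ?_
    have h1 : r * n / (d + 1) = r * (2 * (q + 1)) := by
      rw [hq, show r * (2 * (d + 1) * (q + 1)) = r * (2 * (q + 1)) * (d + 1) by ring]
      exact Nat.mul_div_cancel _ (by omega)
    rw [h1, hq]
    have h2 : 2 * (d + 1).choose 2 = d * (d + 1) := by
      rw [Nat.choose_two_right]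
      have : Even ((d + 1) * (d + 1 - 1)) := by
        rw [Nat.add_sub_cancel, mul_comm]; exact Nat.even_mul_succ_self d
      rw [Nat.mul_div_cancel' this.two_dvd, Nat.add_sub_cancel, mul_comm]
    simp only [zero_mul, Nat.sub_zero, zero_add]
    nlinarith
  · exact lower_general n d r 0 hr (by omega) hn

theorem exact_oblong (n d : ℕ) (hn : 2 * d + 3 ≤ n) (h : 2 * d ^ 2 ≤ n) :
    f n (d * (d + 1) + 1) = d * n + 1 := by
  apply le_antisymm
  · apply f_le
    intro Γ hΓ
    rcases Nat.eq_zero_or_pos d with rfl | hd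
    · have := upper_block Γ _ hΓ 0 1 0 (by omega)
      by_cases hn2 : n = 2
      · omega
      · -- `t = 0`
        have h1 := upper_general Γ _ 0 0 0 hΓ (by norm_num) (by norm_num) (by omega)
        simpa using h1
    · set q1 := n / (2 * d) with hq1
      have hq1d : d ≤ q1 := by
        rw [hq1, Nat.le_div_iff_mul_le (by omega)]
        nlinarith
      obtain ⟨q, hq⟩ : ∃ q, q1 = q + 1 := ⟨q1 - 1, by omega⟩
      set j := n % (2 * d) with hj
      have hjlt : j < 2 * d := Nat.mod_lt _ (by omega)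
      have hnq : n = 2 * (q + 1) * d + j := by
        have := Nat.div_add_mod n (2 * d)
        rw [← hq1, ← hj, hq] at this
        rw [← this]; ring
      have := upper_block Γ _ hΓ q d j (by omega) hnq (by omega)
      refine le_trans this ?_
      have h2 : 2 * (d + 1).choose 2 = d * (d + 1) := by
        rw [Nat.choose_two_right]
        have : Even ((d + 1) * (d + 1 - 1)) := by
          rw [Nat.add_sub_cancel, mul_comm]; exact Nat.even_mul_succ_self d
        rw [Nat.mul_div_cancel' this.two_dvd, Nat.add_sub_cancel, mul_comm]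
      have h3 : 2 * d.choose 2 + d = d * d := by
        obtain ⟨d', rfl⟩ : ∃ d', d = d' + 1 := ⟨d - 1, by omega⟩
        rw [Nat.choose_two_right]
        have : Even ((d' + 1) * (d' + 1 - 1)) := by
          rw [Nat.add_sub_cancel, mul_comm]; exact Nat.even_mul_succ_self d'
        rw [Nat.mul_div_cancel' this.two_dvd, Nat.add_sub_cancel]
        ring
      obtain ⟨i, hi⟩ : ∃ i, 2 * (q + 1) = i + j := ⟨2 * (q + 1) - j, by omega⟩
      have h4 : 2 * (q + 1) - j = i := by omega
      rw [h4]
      have h5 : d * n = d * ((i + j) * d + j) := by rw [hnq, hi]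
      rw [h5]
      nlinarith
  · have := lower_general n d 0 0 (by omega) (by omega) hn
    simpa using this

theorem exact_le_choose (n d r : ℕ) (hr : r ≤ d) (hn : 2 * d + 3 ≤ n) :
    d * n + r * n / (d + 1) + 1 ≤ n.choose 2 := by
  have hn0 : 0 < n := by omega
  set N := r * n / (d + 1) with hN
  have hDN : (d + 1) * N ≤ r * n := Nat.mul_div_le _ _
  have h1 : N < n := by
    by_contra h
    push Not at h
    have h1 : (d + 1) * n ≤ (d + 1) * N := Nat.mul_le_mul_left _ h
    have h2 : r * n < (d + 1) * n := Nat.mul_lt_mul_of_pos_right (by omega) hn0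
    omega
  rw [Nat.choose_two_right, Nat.le_div_iff_mul_le (by norm_num)]
  have h3 : 2 * (d + 1) ≤ n - 1 := by omega
  have h4 : n * (2 * (d + 1)) ≤ n * (n - 1) := Nat.mul_le_mul_left _ h3
  nlinarith

end Pool.Agent.T2H82.GeoLine
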